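import Pool.Agent.H23.GLM.Defs
import Pool.Agent.H23.DZ.Far

/-!
# Definitions for the statement about mollifiers
-/

set_option autoImplicit false

open Complex

namespace Pool.Agent.H26.ML

open Pool.Agent.H23.GLM

variable {m : ℕ}

/-- The Dirichlet polynomial `∑ b_n n^{-s}`, `1 ≤ n ≤ N`. -/
noncomputable def dpoly (b : ℕ → ℂ) (N : ℕ) (s : ℂ) : ℂ :=
  ∑ n ∈ Finset.Icc 1 N, b n * (n : ℂ) ^ (-s)

/-- There is `B` such that for every `ε > 0` there are `R > 0` and `θ ≥ 0` such that for every `T`,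
whenever `π ∈ S` and `X = C_π (1 + |t|)^m` is large enough, there is a Dirichlet polynomial
`M(s) = ∑ b_n n^{-s}`, `1 ≤ n ≤ X^θ`, with `b_1 = 1` and `|b_n| ≤ n^B`, such that the integral of
`log |L(1/2 + iv, π) M(1/2 + iv)|` over `[u, u + R]` is at most `ε min(1, R) log X` for all `u` with
`|u - t| ≤ T`. -/
def Mollified (S : Set (LData m)) : Prop :=
  ∃ B : ℝ, ∀ ε : ℝ, 0 < ε → ∃ R θ : ℝ, 0 < R ∧ 0 ≤ θ ∧ ∀ T : ℝ, ∃ K : ℝ, ∀ π ∈ S, ∀ t : ℝ,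
    K ≤ π.X t → ∃ b : ℕ → ℂ, b 1 = 1 ∧ (∀ n : ℕ, 1 ≤ n → ‖b n‖ ≤ (n : ℝ) ^ B) ∧
      ∀ u : ℝ, |u - t| ≤ T →
        ∫ v in u..u + R, Real.log ‖π.L (1 / 2 + v * I) * dpoly b ⌊π.X t ^ θ⌋₊ (1 / 2 + v * I)‖ ≤
          ε * min 1 R * Real.log (π.X t)

/-- The same with arbitrary analytic multipliers `M`, of polynomial growth in `Re s ≥ 1/2` and
bounded below in `Re s ≥ σ`. -/
def Multiplied (S : Set (LData m)) : Prop :=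
  ∃ σ : ℝ, ∀ ε : ℝ, 0 < ε → ∃ R θ : ℝ, 0 < R ∧ 0 ≤ θ ∧ ∀ T : ℝ, ∃ K : ℝ, ∀ π ∈ S, ∀ t : ℝ,
    K ≤ π.X t → ∃ M : ℂ → ℂ, AnalyticOnNhd ℂ M {s | 1 / 2 ≤ s.re} ∧
      (∀ s : ℂ, 1 / 2 ≤ s.re → ‖M s‖ ≤ (π.X t * (1 + ‖s - t * I‖)) ^ θ) ∧
      (∀ s : ℂ, σ ≤ s.re → |s.im - t| ≤ T → 1 ≤ σ * ‖M s‖) ∧
      ∀ u : ℝ, |u - t| ≤ T →
        ∫ v in u..u + R, Real.log ‖π.L (1 / 2 + v * I) * M (1 / 2 + v * I)‖ ≤
          ε * min 1 R * Real.log (π.X t)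

/-- The means of `log |L(1/2 + iu, π)|` over the windows of length `R`. -/
def LogMeans (S : Set (LData m)) (R ε : ℝ) : Prop :=
  ∃ K : ℝ, ∀ π ∈ S, ∀ t : ℝ, K ≤ π.X t →
    ∫ u in t..t + R, Real.log ‖π.L (1 / 2 + u * I)‖ ≤ ε * Real.log (π.X t)

end Pool.Agent.H26.ML
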