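import Pool.Agent.H26.ML.Defs

/-! Dirichlet polynomials are multipliers. -/

set_option autoImplicit false

open Complex Set Filter Topology

namespace Pool.Agent.H26.ML

lemma dpoly_diff (b : ℕ → ℂ) (N : ℕ) : Differentiable ℂ (dpoly b N) := by
  unfold dpoly
  refine Differentiable.fun_sum fun n hn => ?_
  have hn0 : (n : ℂ) ≠ 0 := by
    have := (Finset.mem_Icc.mp hn).1
    exact_mod_cast (by omega : n ≠ 0)
  exact (differentiable_neg.const_cpow (Or.inl hn0)).const_mul _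

lemma norm_term {b : ℕ → ℂ} {n : ℕ} (hn : 1 ≤ n) {B : ℝ} (hb : ‖b n‖ ≤ (n : ℝ) ^ B) (s : ℂ) :
    ‖b n * (n : ℂ) ^ (-s)‖ ≤ (n : ℝ) ^ (B - s.re) := by
  have hn0 : (0:ℝ) < n := by exact_mod_cast hn
  rw [norm_mul, Complex.norm_natCast_cpow_of_pos hn, neg_re, Real.rpow_sub hn0, div_eq_mul_inv,
    ← Real.rpow_neg hn0.le]
  gcongr

lemma dpoly_growth {b : ℕ → ℂ} {B : ℝ} (hb : ∀ n : ℕ, 1 ≤ n → ‖b n‖ ≤ (n : ℝ) ^ B) (N : ℕ)
    {s : ℂ} (hs : 1 / 2 ≤ s.re) {Y : ℝ} (hN : (N : ℝ) ≤ Y) (hY : 1 ≤ Y) :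
    ‖dpoly b N s‖ ≤ Y ^ (1 + |B|) := by
  unfold dpoly
  refine (norm_sum_le _ _).trans ?_
  have h1 : ∀ n ∈ Finset.Icc 1 N, ‖b n * (n : ℂ) ^ (-s)‖ ≤ Y ^ |B| := by
    intro n hn
    obtain ⟨h1, h2⟩ := Finset.mem_Icc.mp hn
    have hn1 : (1:ℝ) ≤ n := by exact_mod_cast h1
    have hnY : (n:ℝ) ≤ Y := le_trans (by exact_mod_cast h2) hN
    refine (norm_term h1 (hb n h1) s).trans ?_
    calc (n : ℝ) ^ (B - s.re) ≤ (n : ℝ) ^ |B| := by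
          apply Real.rpow_le_rpow_of_exponent_le hn1
          have := le_abs_self B
          linarith
      _ ≤ Y ^ |B| := Real.rpow_le_rpow (by linarith) hnY (abs_nonneg B)
  calc ∑ n ∈ Finset.Icc 1 N, ‖b n * (n : ℂ) ^ (-s)‖ ≤ ∑ _n ∈ Finset.Icc 1 N, Y ^ |B| :=
        Finset.sum_le_sum h1
    _ = N * Y ^ |B| := by simp
    _ ≤ Y * Y ^ |B| := by
        have : 0 < Y ^ |B| := by positivity
        gcongr
    _ = _ := by
        rw [Real.rpow_add (by linarith), Real.rpow_one]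

lemma dpoly_low {b : ℕ → ℂ} {B : ℝ} (h1 : b 1 = 1)
    (hb : ∀ n : ℕ, 1 ≤ n → ‖b n‖ ≤ (n : ℝ) ^ B) {N : ℕ} (hN : 1 ≤ N)
    {s : ℂ} (hs : B + 3 ≤ s.re) : 1 / 2 ≤ ‖dpoly b N s‖ := by
  have e : dpoly b N s = 1 + ∑ n ∈ Finset.Ioc 1 N, b n * (n : ℂ) ^ (-s) := by
    unfold dpoly
    rw [← Finset.Ioc_insert_left hN, Finset.sum_insert (by simp), h1]
    simp
  have h2 : ‖∑ n ∈ Finset.Ioc 1 N, b n * (n : ℂ) ^ (-s)‖ ≤ 1 / 2 := by
    refine (norm_sum_le _ _).trans ?_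
    have h3 : ∀ n ∈ Finset.Ioc 1 N, ‖b n * (n : ℂ) ^ (-s)‖ ≤ 1 / 2 * ((n : ℝ) ^ 2)⁻¹ := by
      intro n hn
      obtain ⟨hn1, hn2⟩ := Finset.mem_Ioc.mp hn
      have hn2' : (2:ℝ) ≤ n := by exact_mod_cast hn1
      refine (norm_term hn1.le (hb n hn1.le) s).trans ?_
      calc (n : ℝ) ^ (B - s.re) ≤ (n : ℝ) ^ (-3 : ℝ) := by
            apply Real.rpow_le_rpow_of_exponent_le (by linarith)
            linarith
        _ = (n : ℝ)⁻¹ * ((n : ℝ) ^ 2)⁻¹ := by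
            rw [Real.rpow_neg (by linarith), ← mul_inv]
            congr 1
            norm_cast
            ring
        _ ≤ 1 / 2 * ((n : ℝ) ^ 2)⁻¹ := by
            have : (n:ℝ)⁻¹ ≤ 1 / 2 := by
              rw [one_div]
              exact inv_anti₀ (by norm_num) hn2'
            gcongr
    calc ∑ n ∈ Finset.Ioc 1 N, ‖b n * (n : ℂ) ^ (-s)‖
        ≤ ∑ n ∈ Finset.Ioc 1 N, 1 / 2 * ((n : ℝ) ^ 2)⁻¹ := Finset.sum_le_sum h3
      _ = 1 / 2 * ∑ n ∈ Finset.Ioc 1 N, ((n : ℝ) ^ 2)⁻¹ := by rw [Finset.mul_sum]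
      _ ≤ 1 / 2 * 1 := by
          have h4 := sum_Ioc_inv_sq_le_sub (α := ℝ) one_ne_zero hN
          have h5 : (0:ℝ) ≤ (N : ℝ)⁻¹ := by positivity
          have h6 : ∑ n ∈ Finset.Ioc 1 N, ((n : ℝ) ^ 2)⁻¹ ≤ 1 := by
            refine h4.trans ?_
            rw [Nat.cast_one, inv_one]
            linarith
          gcongr
      _ = 1 / 2 := by norm_num
  rw [e]
  have h3 := norm_sub_norm_le (1 : ℂ) (-∑ n ∈ Finset.Ioc 1 N, b n * (n : ℂ) ^ (-s))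
  rw [sub_neg_eq_add, norm_neg, norm_one] at h3
  linarith

end Pool.Agent.H26.ML
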