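import Pool.Agent.H26.ML.Few
import Pool.Agent.H26.ML.Poly
import Pool.Agent.H23.DZ.Equiv

/-! The equivalences. -/

set_option autoImplicit false

open Complex MeasureTheory Set Filter Topology

namespace Pool.Agent.H26.ML

open Pool.Agent.H23.GLM Pool.Agent.H23.GLH Pool.Agent.H23.DZ
open Pool.Agent.H73.DZ (X_le)

variable {m : ℕ}

lemma L_int (π : LData m) (a b : ℝ) :
    IntervalIntegrable (fun v : ℝ => Real.log ‖π.L (1 / 2 + v * I)‖) volume a b :=
  line_int (fun v => L_line π v) a b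

/-- `GLH` bounds the means. -/
theorem logMeans_of_glh {S : Set (LData m)} (hm : 1 ≤ m) (h : GLH S) (R ε : ℝ) (hR : 0 < R)
    (hε : 0 < ε) : LogMeans S R ε := by
  obtain ⟨B₀, hB₀⟩ := h (ε / (2 * R)) (by positivity)
  set B := max B₀ 1 with hB
  have hB1 : 1 ≤ B := le_max_right _ _
  have hlB : 0 ≤ Real.log B := Real.log_nonneg hB1
  set D := R * (Real.log B + ε / (2 * R) * (m * Real.log (1 + R))) with hD
  refine ⟨Real.exp (2 * D / ε), fun π hπ t hX => ?_⟩
  have hX1 := π.one_le_X t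
  have hX0 : 0 < π.X t := by linarith
  have hlX : 0 ≤ Real.log (π.X t) := Real.log_nonneg hX1
  have hlR : 0 ≤ Real.log (1 + R) := Real.log_nonneg (by linarith)
  have h1 : ∀ u ∈ Icc t (t + R), Real.log ‖π.L (1 / 2 + u * I)‖ ≤
      Real.log B + ε / (2 * R) * (Real.log (π.X t) + m * Real.log (1 + R)) := by
    intro u hu
    have hC := π.one_le_C
    have hu0 := abs_nonneg u
    have h2 := hB₀ π hπ u
    set y := (1 + |u|) * π.C with hy
    have hy1 : 1 ≤ y := one_le_mul_of_one_le_of_one_le (by linarith) hC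
    have h3 : y ≤ π.X t * (1 + R) ^ m := by
      have h4 := X_le π t u
      have h5 : |u - t| ≤ R := by
        rw [abs_of_nonneg (by linarith [hu.1])]
        linarith [hu.2]
      have h6 : y ≤ π.X u := by
        unfold LData.X
        rw [hy, mul_comm]
        have : (1 + |u|) ≤ (1 + |u|) ^ m := le_self_pow₀ (by linarith) (by omega)
        gcongr
      have h7 : (1 + |u - t|) ^ m ≤ (1 + R) ^ m := by
        have := abs_nonneg (u - t)
        gcongr
      calc y ≤ π.X u := h6
        _ ≤ (1 + |u - t|) ^ m * π.X t := h4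
        _ ≤ (1 + R) ^ m * π.X t := by gcongr
        _ = _ := mul_comm _ _
    have h8 : Real.log y ≤ Real.log (π.X t) + m * Real.log (1 + R) := by
      have := Real.log_le_log (by linarith) h3
      rwa [Real.log_mul hX0.ne' (by positivity), Real.log_pow] at this
    have hly : 0 ≤ Real.log y := Real.log_nonneg hy1
    rcases (norm_nonneg (π.L (1 / 2 + u * I))).eq_or_lt with h0 | h0
    · rw [← h0, Real.log_zero]
      positivity
    · have h9 : ‖π.L (1 / 2 + u * I)‖ ≤ B * y ^ (ε / (2 * R)) := by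
        refine h2.trans ?_
        have : B₀ ≤ B := le_max_left _ _
        gcongr
      have h10 := Real.log_le_log h0 h9
      rw [Real.log_mul (by linarith) (by positivity), Real.log_rpow (by linarith)] at h10
      refine h10.trans ?_
      gcongr
  have h2 : ∫ u in t..t + R, Real.log ‖π.L (1 / 2 + u * I)‖ ≤ ∫ _u in t..t + R,
      (Real.log B + ε / (2 * R) * (Real.log (π.X t) + m * Real.log (1 + R))) :=
    intervalIntegral.integral_mono_on (by linarith) (L_int π _ _) (by simp) h1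
  rw [intervalIntegral.integral_const, smul_eq_mul, add_sub_cancel_left] at h2
  refine h2.trans ?_
  have h3 : 2 * D / ε ≤ Real.log (π.X t) := by
    rw [Real.le_log_iff_exp_le hX0]; exact hX
  have h4 : D ≤ ε / 2 * Real.log (π.X t) := by
    rw [div_le_iff₀ hε] at h3
    linarith
  have h5 : R * (Real.log B + ε / (2 * R) * (Real.log (π.X t) + m * Real.log (1 + R))) =
      D + ε / 2 * Real.log (π.X t) := by
    rw [hD]
    field_simp
    ring
  rw [h5]
  linarith

/-- The means with `M = 1`. -/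
theorem mollified_of_logMeans {S : Set (LData m)}
    (h : ∀ ε : ℝ, 0 < ε → ∃ R : ℝ, 0 < R ∧ LogMeans S R (ε * min 1 R)) : Mollified S := by
  refine ⟨0, fun ε hε => ?_⟩
  obtain ⟨R, hR, K, hK⟩ := h (ε / 2) (by positivity)
  refine ⟨R, 0, hR, le_rfl, fun T => ?_⟩
  refine ⟨max ((1 + |T|) ^ m * max K 1) ((1 + |T|) ^ m), fun π hπ t hX => ?_⟩
  have hX1 := π.one_le_X t
  have hX0 : 0 < π.X t := by linarith
  have hT := abs_nonneg T
  have hpow : 1 ≤ (1 + |T|) ^ m := one_le_pow₀ (by linarith)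
  refine ⟨fun n => if n = 1 then 1 else 0, if_pos rfl, fun n hn => ?_, fun u hu => ?_⟩
  · rw [Real.rpow_zero]
    by_cases h1 : n = 1
    · simp [h1]
    · simp [h1]
  have huT : |u - t| ≤ |T| := hu.trans (le_abs_self T)
  have h1 : π.X t ≤ (1 + |T|) ^ m * π.X u := by
    refine (X_le π u t).trans ?_
    have h2 : |t - u| ≤ |T| := by rwa [abs_sub_comm]
    have := abs_nonneg (t - u)
    have := π.one_le_X u
    gcongr
  have h2 : π.X u ≤ (1 + |T|) ^ m * π.X t := by
    refine (X_le π t u).trans ?_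
    have := abs_nonneg (u - t)
    gcongr
  have hXu : K ≤ π.X u := by
    have h3 : (1 + |T|) ^ m * max K 1 ≤ (1 + |T|) ^ m * π.X u :=
      ((le_max_left _ _).trans hX).trans h1
    have h4 := le_of_mul_le_mul_left h3 (by linarith)
    exact (le_max_left _ _).trans h4
  have hlog : Real.log (π.X u) ≤ 2 * Real.log (π.X t) := by
    have hXu1 := π.one_le_X u
    have h3 : π.X u ≤ π.X t * π.X t := h2.trans (by
      have : (1 + |T|) ^ m ≤ π.X t := (le_max_right _ _).trans hX
      gcongr)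
    have h4 := Real.log_le_log (by linarith) h3
    rw [Real.log_mul hX0.ne' hX0.ne'] at h4
    linarith
  have h5 := hK π hπ u hXu
  have h6 : ∀ v : ℝ, π.L (1 / 2 + v * I) * dpoly (fun n => if n = 1 then 1 else 0)
      ⌊π.X t ^ (0:ℝ)⌋₊ (1 / 2 + v * I) = π.L (1 / 2 + v * I) := by
    intro v
    unfold dpoly
    rw [Real.rpow_zero]
    simp
  simp_rw [h6]
  refine h5.trans ?_
  have hmin : 0 < min 1 R := lt_min one_pos hR
  calc ε / 2 * min 1 R * Real.log (π.X u) ≤ ε / 2 * min 1 R * (2 * Real.log (π.X t)) := by gcongr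
    _ = _ := by ring

theorem multiplied_of_mollified {S : Set (LData m)} (h : Mollified S) : Multiplied S := by
  obtain ⟨B, hB⟩ := h
  refine ⟨max (B + 3) 2, fun ε hε => ?_⟩
  obtain ⟨R, θ, hR, hθ, h1⟩ := hB ε hε
  refine ⟨R, θ * (1 + |B|), hR, by positivity, fun T => ?_⟩
  obtain ⟨K, hK⟩ := h1 T
  refine ⟨K, fun π hπ t hX => ?_⟩
  have hX1 := π.one_le_X t
  obtain ⟨b, hb1, hb, hw⟩ := hK π hπ t hX
  have hY : 1 ≤ π.X t ^ θ := Real.one_le_rpow hX1 hθ
  have hN : 1 ≤ ⌊π.X t ^ θ⌋₊ := by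
    rw [Nat.one_le_floor_iff]
    exact hY
  refine ⟨dpoly b ⌊π.X t ^ θ⌋₊, fun s _ => (dpoly_diff _ _).analyticAt s, fun s hs => ?_,
    fun s hs _ => ?_, hw⟩
  · refine (dpoly_growth hb _ hs (Nat.floor_le (by linarith)) hY).trans ?_
    rw [← Real.rpow_mul (by linarith)]
    refine Real.rpow_le_rpow (by linarith) ?_ (by positivity)
    have := norm_nonneg (s - t * I)
    nlinarith
  · have h2 : B + 3 ≤ s.re := (le_max_left _ _).trans hs
    have h3 := dpoly_low hb1 hb hN h2
    have h4 : (2:ℝ) ≤ max (B + 3) 2 := le_max_right _ _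
    nlinarith

/-- **The equivalences.** -/
theorem mollifier_tfae (m : ℕ) (S : Set (LData m)) (hm : 1 ≤ m) (hM : Molteni S)
    (hF : FarBounds S) : List.TFAE [
      GLH S,
      ∀ R ε : ℝ, 0 < R → 0 < ε → LogMeans S R ε,
      ∀ ε : ℝ, 0 < ε → ∃ R : ℝ, 0 < R ∧ LogMeans S R (ε * min 1 R),
      Mollified S,
      Multiplied S] := by
  tfae_have 1 → 2 := fun h R ε hR hε => logMeans_of_glh hm h R ε hR hε
  tfae_have 2 → 3 := fun h ε hε => ⟨1, one_pos, h 1 _ one_pos (by simpa using hε)⟩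
  tfae_have 3 → 4 := mollified_of_logMeans
  tfae_have 4 → 5 := multiplied_of_mollified
  tfae_have 5 → 1 := fun h =>
    ((equivalences m S hm hM hF 0).out 0 1).mpr (fewZeros_of_multiplied hM hF h)
  tfae_finish

end Pool.Agent.H26.ML
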