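import Pool.Agent.H23.GLM.Defs
import Pool.Agent.H23.GLM.Instance
import Pool.Agent.H23.GLM.GL1
import Pool.Agent.H61.Ray.Defs
import Pool.Agent.H61.Ray.Main

/-! The criterion with rays (from the hand-in `RayCriterion` of helper61, unchanged). -/

set_option autoImplicit false

open Complex MeasureTheory Set

namespace Pool.Agent.H26.ML

open Pool.Agent.H23.GLM Pool.Agent.H23.GLH Pool.Agent.H61.Ray

variable {m : ℕ}

lemma large_X {B' ε Q : ℝ} (hB' : 1 ≤ B') (hε : 0 < ε) (h : B' ^ (1 / ε) ≤ Q) : B' ≤ Q ^ ε := by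
  have h5 : (B' ^ (1 / ε)) ^ ε ≤ Q ^ ε := Real.rpow_le_rpow (by positivity) h hε.le
  rw [← Real.rpow_mul (by linarith)] at h5
  have e : 1 / ε * ε = 1 := by field_simp
  rwa [e, Real.rpow_one] at h5

theorem ray_tfae {S : Set (LData m)} (hM : Molteni S) {d : ℝ} (hd : 0 < d) (hgap : HasGap S d) {a : ℝ}
    (ha : 0 ≤ a) : List.TFAE [
      ∀ ε > 0, Bound S (a + ε),
      ∀ ε > 0, ∃ K : ℝ, ∀ π ∈ S, ∀ t : ℝ, K ≤ π.X t → ∀ r : ℝ, π.X t ^ (a + ε) < r →
        π.L (1 / 2 + t * I) ≠ -r,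
      ∃ θ : LData m → ℝ, ∀ ε > 0, ∃ K : ℝ, ∀ π ∈ S, ∀ t : ℝ, K ≤ π.X t → ∀ r : ℝ,
        π.X t ^ (a + ε) < r → π.L (1 / 2 + t * I) ≠ r * cexp (θ π * I),
      ∀ ε > 0, ∃ η > 0, ∀ δ > 0, AvoidsRays S (a + ε) η δ] := by
  tfae_have 1 → 2 := by
    intro h ε hε
    obtain ⟨B, hB⟩ := h (ε / 2) (by positivity)
    set B' := max B 1 with hB'
    have hB'1 : 1 ≤ B' := le_max_right _ _
    refine ⟨B' ^ (1 / (ε / 2)), fun π hπ t ht r hr hL => ?_⟩
    have hQ1 := π.one_le_X t
    set Q := π.X t with hQ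
    have hQ0 : 0 < Q := by linarith
    have h1 : B' ≤ Q ^ (ε / 2) := large_X hB'1 (by positivity) ht
    have h2 := hB π hπ t
    have hQa : 0 < Q ^ (a + ε) := Real.rpow_pos_of_pos hQ0 _
    have hr0 : 0 < r := hQa.trans hr
    rw [hL, norm_neg, norm_real, Real.norm_of_nonneg hr0.le] at h2
    have h3 : B * Q ^ (a + ε / 2) ≤ Q ^ (a + ε) := by
      calc B * Q ^ (a + ε / 2) ≤ B' * Q ^ (a + ε / 2) := by
            have : B ≤ B' := le_max_left _ _
            gcongr
        _ ≤ Q ^ (ε / 2) * Q ^ (a + ε / 2) := by gcongr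
        _ = Q ^ (a + ε) := by rw [← Real.rpow_add hQ0]; congr 1; ring
    linarith
  tfae_have 2 → 3 := by
    intro h
    refine ⟨fun _ => Real.pi, fun ε hε => ?_⟩
    obtain ⟨K, hK⟩ := h ε hε
    refine ⟨K, fun π hπ t ht r hr => ?_⟩
    rw [Complex.exp_pi_mul_I, mul_neg_one]
    exact hK π hπ t ht r hr
  tfae_have 3 → 4 := by
    rintro ⟨θ, h⟩ ε hε
    obtain ⟨K, hK⟩ := h ε hε
    refine ⟨1, one_pos, fun δ hδ => ⟨2 ^ m * K, fun π hπ t ht => ⟨θ π, ∅, ?_, ?_⟩⟩⟩
    · have := Real.log_nonneg (π.one_le_X t)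
      simp only [Finset.card_empty, Nat.cast_zero]
      positivity
    · intro u hu _ r hr
      refine hK π hπ u ?_ r hr
      have h1 := qcomp (c := π.C) (by linarith [π.one_le_C]) m u (t - u)
      rw [add_sub_cancel] at h1
      have h2 : |t - u| ≤ 1 := by
        rw [abs_le]
        constructor <;> linarith [hu.1, hu.2]
      have h3 : (1 + |t - u|) ^ m ≤ 2 ^ m := by
        have := abs_nonneg (t - u)
        gcongr
        linarith
      have h4 := π.one_le_X u
      have h5 : 2 ^ m * K ≤ 2 ^ m * π.X u := by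
        calc 2 ^ m * K ≤ π.X t := ht
          _ ≤ π.X u * (1 + |t - u|) ^ m := h1
          _ ≤ π.X u * 2 ^ m := by gcongr
          _ = _ := mul_comm _ _
      exact le_of_mul_le_mul_left h5 (by positivity)
  tfae_have 4 → 1 := fun h => ray_limit hM hd hgap ha h
  tfae_finish

lemma glh_iff {S : Set (LData m)} (hm : 1 ≤ m) : GLH S ↔ ∀ ε > 0, Bound S ε := by
  constructor
  · intro h ε hε
    obtain ⟨B, hB⟩ := h ε hε
    refine ⟨max B 0, fun π hπ t => (hB π hπ t).trans ?_⟩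
    have hC := π.one_le_C
    have ht := abs_nonneg t
    have h1 : (1 + |t|) * π.C ≤ π.X t := by
      have : 1 + |t| ≤ (1 + |t|) ^ m := le_self_pow₀ (by linarith) (by omega)
      calc (1 + |t|) * π.C ≤ (1 + |t|) ^ m * π.C := by gcongr
        _ = _ := mul_comm _ _
    have h2 : ((1 + |t|) * π.C) ^ ε ≤ π.X t ^ ε := Real.rpow_le_rpow (by positivity) h1 hε.le
    calc B * ((1 + |t|) * π.C) ^ ε ≤ max B 0 * ((1 + |t|) * π.C) ^ ε := by
          have : 0 ≤ ((1 + |t|) * π.C) ^ ε := by positivity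
          gcongr
          exact le_max_left _ _
      _ ≤ _ := by
          have : 0 ≤ max B 0 := le_max_right _ _
          gcongr
  · intro h ε hε
    have hm0 : (0:ℝ) < m := by exact_mod_cast hm
    obtain ⟨B, hB⟩ := h (ε / m) (by positivity)
    refine ⟨max B 0, fun π hπ t => (hB π hπ t).trans ?_⟩
    have hC := π.one_le_C
    have ht := abs_nonneg t
    have h1 : π.X t ≤ ((1 + |t|) * π.C) ^ m := by
      have : π.C ≤ π.C ^ m := le_self_pow₀ hC (by omega)
      rw [mul_pow]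
      calc π.X t = π.C * (1 + |t|) ^ m := rfl
        _ ≤ π.C ^ m * (1 + |t|) ^ m := by gcongr
        _ = _ := mul_comm _ _
    have h2 : π.X t ^ (ε / m) ≤ ((1 + |t|) * π.C) ^ ε := by
      have hX := π.one_le_X t
      calc π.X t ^ (ε / m) ≤ (((1 + |t|) * π.C) ^ m) ^ (ε / m) :=
            Real.rpow_le_rpow (by linarith) h1 (by positivity)
        _ = _ := by
            rw [← Real.rpow_natCast, ← Real.rpow_mul (by positivity)]
            congr 1
            field_simp
    calc B * π.X t ^ (ε / m) ≤ max B 0 * π.X t ^ (ε / m) := by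
          have hX := π.one_le_X t
          have : 0 ≤ π.X t ^ (ε / m) := by positivity
          gcongr
          exact le_max_left _ _
      _ ≤ _ := by
          have : 0 ≤ max B 0 := le_max_right _ _
          gcongr

lemma gap_primChar (S : Set PrimChar) : HasGap (ofPrimChar '' S) (1 / 2) := by
  rintro _ ⟨π, _, rfl⟩ j
  show (par π.χ).re ≤ _
  unfold par
  split_ifs <;> norm_num

end Pool.Agent.H26.ML
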