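import Pool.Agent.H26.ML.Fat

/-! Jensen's inequality in the right half plane, with the Poisson kernel on the imaginary axis. -/

set_option autoImplicit false

open Set Filter Topology Metric MeasureTheory

namespace Pool.Agent.H26.ML

variable {f : ℂ → ℂ} {c A B : ℝ}

/-- the change of variables -/
noncomputable def ang (c u : ℝ) : ℝ := -(2 * Real.arctan (u / c))

lemma ang_hasDerivAt (hc : 0 < c) (u : ℝ) : HasDerivAt (ang c) (-(2 * (c / (c ^ 2 + u ^ 2)))) u := by
  have h1 : HasDerivAt (fun u : ℝ => u / c) (1 / c) u := (hasDerivAt_id u).div_const c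
  have h2 := (h1.arctan.const_mul 2).neg
  have e : -(2 * (c / (c ^ 2 + u ^ 2))) = -(2 * (1 / (1 + (u / c) ^ 2) * (1 / c))) := by
    field_simp
  rw [e]
  exact h2

lemma ang_inj (hc : 0 < c) : Function.Injective (ang c) := by
  intro u v h
  unfold ang at h
  have h1 : Real.arctan (u / c) = Real.arctan (v / c) := by linarith
  have h2 := Real.arctan_injective h1
  rwa [div_left_inj' hc.ne'] at h2

lemma ang_image (hc : 0 < c) : ang c '' univ = Ioo (-Real.pi) Real.pi := by
  ext θ
  constructor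
  · rintro ⟨u, -, rfl⟩
    have h1 := Real.arctan_lt_pi_div_two (u / c)
    have h2 := Real.neg_pi_div_two_lt_arctan (u / c)
    unfold ang
    constructor <;> linarith
  · rintro ⟨h1, h2⟩
    refine ⟨c * Real.tan (-θ / 2), mem_univ _, ?_⟩
    unfold ang
    rw [mul_div_cancel_left₀ _ hc.ne', Real.arctan_tan (by linarith) (by linarith)]
    ring

lemma bdry_periodic (f : ℂ → ℂ) (c : ℝ) : Function.Periodic (bdry f c 1) (2 * Real.pi) := by
  intro θ
  unfold bdry
  rw [periodic_circleMap 0 1 θ]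

lemma bdry_ang (hc : 0 < c) (u : ℝ) : bdry f c 1 (ang c u) = Real.log ‖f (u * Complex.I)‖ := by
  unfold bdry ang
  rw [cay_circle c u hc]

/-- **Jensen's inequality in the right half plane.** -/
theorem halfplane_jensen (hc : 0 < c) (hA : 1 ≤ A) (hB : 0 ≤ B)
    (hf : AnalyticOnNhd ℂ f {z | 0 ≤ z.re})
    (hg : ∀ z : ℂ, 0 ≤ z.re → ‖f z‖ ≤ A * (1 + ‖z‖) ^ B) (hfc : f c ≠ 0)
    (Z : Finset ℂ) (hZ : ∀ z ∈ Z, 0 < z.re) :
    Integrable (fun u : ℝ => c / (c ^ 2 + u ^ 2) * Real.log ‖f (u * Complex.I)‖) ∧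
      Real.pi * (∑ z ∈ Z, (analyticOrderNatAt f z : ℝ) *
        Real.log (‖(c : ℂ) + z‖ / ‖(c : ℂ) - z‖) + Real.log ‖f c‖) ≤
        ∫ u : ℝ, c / (c ^ 2 + u ^ 2) * Real.log ‖f (u * Complex.I)‖ := by
  have hπ := Real.pi_pos
  obtain ⟨h1, h2⟩ := jensen_circle hc hA hB hf hg hfc Z hZ
  have hper := bdry_periodic f c
  have h3 : IntervalIntegrable (bdry f c 1) volume 0 (2 * Real.pi) := by
    rw [intervalIntegrable_iff_integrableOn_Ioc_of_le (by positivity)]
    exact h1
  have h4 : IntervalIntegrable (bdry f c 1) volume (-Real.pi) Real.pi := by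
    apply hper.intervalIntegrable (by positivity) (t := 0)
    rw [zero_add]; exact h3
  have h5 : ∫ θ in Ioc 0 (2 * Real.pi), bdry f c 1 θ =
      ∫ θ in Ioo (-Real.pi) Real.pi, bdry f c 1 θ := by
    have h6 := hper.intervalIntegral_add_eq 0 (-Real.pi)
    rw [zero_add, intervalIntegral.integral_of_le (by positivity),
      show -Real.pi + 2 * Real.pi = Real.pi by ring,
      intervalIntegral.integral_of_le (by linarith)] at h6
    rw [h6, integral_Ioc_eq_integral_Ioo]
  have h4' : IntegrableOn (bdry f c 1) (Ioo (-Real.pi) Real.pi) := by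
    rw [intervalIntegrable_iff_integrableOn_Ioc_of_le (by linarith)] at h4
    exact h4.mono_set Ioo_subset_Ioc_self
  have hder : ∀ u ∈ (univ : Set ℝ), HasDerivWithinAt (ang c) (-(2 * (c / (c ^ 2 + u ^ 2)))) univ u :=
    fun u _ => (ang_hasDerivAt hc u).hasDerivWithinAt
  have hkey : ∀ u : ℝ, |-(2 * (c / (c ^ 2 + u ^ 2)))| • bdry f c 1 (ang c u) =
      2 * (c / (c ^ 2 + u ^ 2) * Real.log ‖f (u * Complex.I)‖) := by
    intro u
    rw [bdry_ang hc, abs_neg, abs_of_pos (by positivity), smul_eq_mul]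
    ring
  constructor
  · rw [← ang_image hc, integrableOn_image_iff_integrableOn_abs_deriv_smul MeasurableSet.univ hder
      (ang_inj hc).injOn] at h4'
    simp only [hkey, integrableOn_univ] at h4'
    have := h4'.const_mul (1 / 2)
    refine this.congr ?_
    filter_upwards with u
    ring
  · rw [h5, ← ang_image hc, integral_image_eq_integral_abs_deriv_smul MeasurableSet.univ hder
      (ang_inj hc).injOn] at h2
    simp only [hkey, Measure.restrict_univ] at h2
    rw [integral_const_mul] at h2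
    have h7 : zsum f c Z 1 = ∑ z ∈ Z, (analyticOrderNatAt f z : ℝ) *
        Real.log (‖(c : ℂ) + z‖ / ‖(c : ℂ) - z‖) := by
      unfold zsum
      refine Finset.sum_congr rfl fun z _ => ?_
      rw [norm_yac, one_div_div]
    rw [← h7]
    linarith

end Pool.Agent.H26.ML
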