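import Mathlib

/-! The conformal map of the unit disc onto the right half plane. -/

set_option autoImplicit false

open Set Filter Topology Metric MeasureTheory

namespace Pool.Agent.H26.ML

/-- The conformal map from the unit disc onto the right half plane with `0 ↦ c`. -/
noncomputable def cay (c : ℝ) (ζ : ℂ) : ℂ := c * ((1 - ζ) / (1 + ζ))

/-- Its inverse. -/
noncomputable def yac (c : ℝ) (z : ℂ) : ℂ := (c - z) / (c + z)

lemma one_add_ne_of_lt {ζ : ℂ} (h : ‖ζ‖ < 1) : 1 + ζ ≠ 0 := by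
  intro h0
  have h1 : ζ = -1 := by linear_combination h0
  rw [h1] at h
  simp at h

lemma cay_zero (c : ℝ) : cay c 0 = c := by simp [cay]

lemma cay_re (c : ℝ) {ζ : ℂ} (h : 1 + ζ ≠ 0) :
    (cay c ζ).re = c * (1 - ‖ζ‖ ^ 2) / ‖1 + ζ‖ ^ 2 := by
  have h1 : Complex.normSq (1 + ζ) ≠ 0 := by
    rw [Ne, Complex.normSq_eq_zero]; exact h
  unfold cay
  rw [Complex.re_ofReal_mul, Complex.div_re, ← Complex.normSq_eq_norm_sq,
    ← Complex.normSq_eq_norm_sq]
  rw [Complex.normSq_apply (z := ζ)]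
  simp only [Complex.sub_re, Complex.one_re, Complex.add_re, Complex.sub_im, Complex.one_im,
    Complex.add_im]
  field_simp
  ring

lemma cay_re_pos {c : ℝ} (hc : 0 < c) {ζ : ℂ} (h : ‖ζ‖ < 1) : 0 < (cay c ζ).re := by
  rw [cay_re c (one_add_ne_of_lt h)]
  have h1 : 0 < ‖1 + ζ‖ := norm_pos_iff.mpr (one_add_ne_of_lt h)
  have h2 : ‖ζ‖ ^ 2 < 1 := by nlinarith [norm_nonneg ζ]
  have h3 : 0 < 1 - ‖ζ‖ ^ 2 := by linarith
  positivity

lemma cay_re_nonneg {c : ℝ} (hc : 0 < c) {ζ : ℂ} (h : ‖ζ‖ ≤ 1) (h0 : 1 + ζ ≠ 0) :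
    0 ≤ (cay c ζ).re := by
  rw [cay_re c h0]
  have h1 : 0 < ‖1 + ζ‖ := norm_pos_iff.mpr h0
  have h2 : ‖ζ‖ ^ 2 ≤ 1 := by nlinarith [norm_nonneg ζ]
  have h3 : 0 ≤ 1 - ‖ζ‖ ^ 2 := by linarith
  positivity

lemma norm_cay_le {c : ℝ} (hc : 0 < c) {ζ : ℂ} (h : ‖ζ‖ ≤ 1) :
    ‖cay c ζ‖ ≤ 2 * c / ‖1 + ζ‖ := by
  unfold cay
  rw [norm_mul, norm_div, Complex.norm_real, Real.norm_of_nonneg hc.le]
  have h1 : ‖1 - ζ‖ ≤ 2 := by
    refine (norm_sub_le _ _).trans ?_
    rw [norm_one]; linarith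
  rw [mul_div_assoc', mul_comm c]
  gcongr

lemma cay_yac {c : ℝ} (hc : 0 < c) {z : ℂ} (h : 0 ≤ z.re) : cay c (yac c z) = z := by
  have h1 : (c : ℂ) + z ≠ 0 := by
    intro h0
    have := congrArg Complex.re h0
    simp at this
    linarith
  have h2 : (c : ℂ) ≠ 0 := by exact_mod_cast hc.ne'
  unfold cay yac
  have h3 : 1 + (c - z) / (c + z) = 2 * c / (c + z) := by field_simp; ring
  have h4 : 1 - (c - z) / (c + z) = 2 * z / (c + z) := by field_simp; ring
  rw [h3, h4]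
  field_simp

lemma norm_yac_lt {c : ℝ} (hc : 0 < c) {z : ℂ} (h : 0 < z.re) : ‖yac c z‖ < 1 := by
  have h1 : (c : ℂ) + z ≠ 0 := by
    intro h0
    have := congrArg Complex.re h0
    simp at this
    linarith
  unfold yac
  rw [norm_div, div_lt_one (norm_pos_iff.mpr h1)]
  apply lt_of_pow_lt_pow_left₀ 2 (norm_nonneg _)
  rw [← Complex.normSq_eq_norm_sq, ← Complex.normSq_eq_norm_sq, Complex.normSq_apply,
    Complex.normSq_apply]
  simp only [Complex.sub_re, Complex.ofReal_re, Complex.sub_im, Complex.ofReal_im, Complex.add_re,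
    Complex.add_im]
  nlinarith

lemma norm_yac {c : ℝ} {z : ℂ} : ‖yac c z‖ = ‖(c : ℂ) - z‖ / ‖(c : ℂ) + z‖ := by
  unfold yac; rw [norm_div]

lemma analyticAt_cay (c : ℝ) {ζ : ℂ} (h : 1 + ζ ≠ 0) : AnalyticAt ℂ (cay c) ζ := by
  unfold cay
  fun_prop (disch := exact h)

lemma deriv_cay_ne {c : ℝ} (hc : 0 < c) {ζ : ℂ} (h : 1 + ζ ≠ 0) : deriv (cay c) ζ ≠ 0 := by
  have h1 : HasDerivAt (cay c) (c * (((0 - 1) * (1 + ζ) - (1 - ζ) * (0 + 1)) / (1 + ζ) ^ 2)) ζ := by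
    unfold cay
    exact ((((hasDerivAt_const ζ (1 : ℂ)).sub (hasDerivAt_id ζ)).div
      ((hasDerivAt_const ζ (1 : ℂ)).add (hasDerivAt_id ζ)) h).const_mul (c : ℂ))
  rw [h1.deriv]
  have h2 : (c : ℂ) ≠ 0 := by exact_mod_cast hc.ne'
  have h3 : (0 - 1) * (1 + ζ) - (1 - ζ) * (0 + 1) = -2 := by ring
  rw [h3]
  exact mul_ne_zero h2 (div_ne_zero (by norm_num) (pow_ne_zero 2 h))

lemma order_comp_cay {c : ℝ} (hc : 0 < c) (f : ℂ → ℂ) {z : ℂ} (hz : 0 < z.re) :
    analyticOrderNatAt (fun ζ => f (cay c ζ)) (yac c z) = analyticOrderNatAt f z := by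
  have h0 := one_add_ne_of_lt (norm_yac_lt hc hz)
  have h := analyticOrderAt_comp_of_deriv_ne_zero (f := f) (analyticAt_cay c h0)
    (deriv_cay_ne hc h0)
  rw [cay_yac hc hz.le] at h
  unfold analyticOrderNatAt
  rw [← h]
  rfl

/-- On the unit circle the map is `θ ↦ -i c tan (θ / 2)`. -/
lemma cay_circle (c : ℝ) (u : ℝ) (hc : 0 < c) :
    cay c (circleMap 0 1 (-(2 * Real.arctan (u / c)))) = u * Complex.I := by
  have hx : (1 : ℂ) + (u / c : ℝ) * Complex.I ≠ 0 := by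
    intro h0
    have := congrArg Complex.re h0
    simp at this
  have hy : (1 : ℂ) - (u / c : ℝ) * Complex.I ≠ 0 := by
    intro h0
    have := congrArg Complex.re h0
    simp at this
  set x : ℝ := u / c with hxd
  have hs : 0 < Real.sqrt (1 + x ^ 2) := Real.sqrt_pos.mpr (by positivity)
  -- exp (i arctan x) = (1 + i x) / sqrt (1 + x^2)
  have h1 : circleMap 0 1 (-(2 * Real.arctan x)) =
      ((1 : ℂ) - x * Complex.I) / ((1 : ℂ) + x * Complex.I) := by
    have e1 : Complex.exp (Real.arctan x * Complex.I) =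
        ((1 : ℂ) + x * Complex.I) / (Real.sqrt (1 + x ^ 2) : ℂ) := by
      rw [Complex.exp_mul_I, ← Complex.ofReal_cos, ← Complex.ofReal_sin, Real.cos_arctan,
        Real.sin_arctan]
      push_cast
      have : ((Real.sqrt (1 + x ^ 2) : ℝ) : ℂ) ≠ 0 := by exact_mod_cast hs.ne'
      field_simp
    have e2 : circleMap 0 1 (-(2 * Real.arctan x)) =
        ((Complex.exp (Real.arctan x * Complex.I)) ^ 2)⁻¹ := by
      unfold circleMap
      rw [← Complex.exp_nat_mul, ← Complex.exp_neg]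
      simp only [Complex.ofReal_one, one_mul, zero_add]
      congr 1
      push_cast
      ring
    rw [e2, e1]
    have e3 : ((Real.sqrt (1 + x ^ 2) : ℝ) : ℂ) ^ 2 =
        ((1 : ℂ) + x * Complex.I) * ((1 : ℂ) - x * Complex.I) := by
      rw [← Complex.ofReal_pow, Real.sq_sqrt (by positivity)]
      push_cast
      linear_combination ((x : ℂ) ^ 2) * Complex.I_sq
    rw [div_pow, inv_div, e3]
    field_simp
  rw [h1]
  unfold cay
  have h2 : (1 : ℂ) + (1 - x * Complex.I) / (1 + x * Complex.I) = 2 / (1 + x * Complex.I) := by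
    field_simp; ring
  have h3 : (1 : ℂ) - (1 - x * Complex.I) / (1 + x * Complex.I) =
      2 * (x * Complex.I) / (1 + x * Complex.I) := by
    field_simp; ring
  have h4 : (c : ℂ) ≠ 0 := by exact_mod_cast hc.ne'
  have h5 : 2 * (x * Complex.I) / (1 + x * Complex.I) / (2 / (1 + x * Complex.I)) =
      x * Complex.I := by
    rw [div_div_div_cancel_right₀ hx, mul_div_cancel_left₀ _ (two_ne_zero)]
  rw [h2, h3, h5, hxd]
  push_cast
  field_simp

end Pool.Agent.H26.ML
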