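import Pool.Agent.H26.ML.Disc
import Pool.Agent.H26.ML.Cay

/-! Jensen's inequality in the right half plane, transported to the unit circle. -/

set_option autoImplicit false

open Set Filter Topology Metric MeasureTheory

namespace Pool.Agent.H26.ML

/-- properties off a discrete subset of the circle hold almost everywhere -/
theorem ae_circle {p : ℂ → Prop} {c : ℂ} {R : ℝ} (hR : R ≠ 0)
    (h : ∀ᶠ z in codiscreteWithin (sphere c |R|), p z) :
    ∀ᵐ θ ∂(volume.restrict (Ioc (0 : ℝ) (2 * Real.pi))), p (circleMap c R θ) := by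
  apply ae_restrict_le_codiscreteWithin measurableSet_Ioc
  exact codiscreteWithin_mono (by tauto) (circleMap_preimage_codiscrete hR h)

variable {f : ℂ → ℂ} {c A B : ℝ}

/-- the majorant -/
noncomputable def maj (c A B : ℝ) (θ : ℝ) : ℝ :=
  Real.log A + B * (Real.log (2 + 4 * c) - Real.log ‖1 + circleMap 0 1 θ‖)

lemma half_norm {r θ : ℝ} (hr0 : 0 ≤ r) (hr1 : r ≤ 1) :
    ‖1 + circleMap 0 1 θ‖ / 2 ≤ ‖1 + circleMap 0 r θ‖ := by
  have e1 : circleMap 0 r θ = (r : ℂ) * circleMap 0 1 θ := by simp [circleMap]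
  have hn : ‖circleMap 0 1 θ‖ = 1 := by simp
  have h1 : ‖1 + circleMap 0 1 θ‖ ≤ ‖1 + circleMap 0 r θ‖ + (1 - r) := by
    have e2 : 1 + circleMap 0 1 θ = (1 + circleMap 0 r θ) + ((1 - r : ℝ) : ℂ) * circleMap 0 1 θ := by
      rw [e1]; push_cast; ring
    calc ‖1 + circleMap 0 1 θ‖ ≤ ‖1 + circleMap 0 r θ‖ + ‖((1 - r : ℝ) : ℂ) * circleMap 0 1 θ‖ := by
          conv_lhs => rw [e2]
          exact norm_add_le _ _
      _ = _ := by
          rw [norm_mul, hn, Complex.norm_real, Real.norm_of_nonneg (by linarith), mul_one]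
  have h2 : 1 - r ≤ ‖1 + circleMap 0 r θ‖ := by
    have h3 : ‖circleMap 0 r θ‖ = r := by simp [abs_of_nonneg hr0]
    have h4 := norm_sub_norm_le (1 : ℂ) (-circleMap 0 r θ)
    rw [norm_one, norm_neg, h3, sub_neg_eq_add] at h4
    exact h4
  linarith

lemma le_maj (hc : 0 < c) (hA : 1 ≤ A) (hB : 0 ≤ B)
    (hg : ∀ z : ℂ, 0 ≤ z.re → ‖f z‖ ≤ A * (1 + ‖z‖) ^ B) {r θ : ℝ} (hr0 : 0 ≤ r) (hr1 : r ≤ 1)
    (hθ : 1 + circleMap 0 1 θ ≠ 0) :
    Real.log ‖f (cay c (circleMap 0 r θ))‖ ≤ maj c A B θ := by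
  have hpos : 0 < ‖1 + circleMap 0 1 θ‖ := norm_pos_iff.mpr hθ
  have hle2 : ‖1 + circleMap 0 1 θ‖ ≤ 2 := by
    refine (norm_add_le _ _).trans ?_
    simp; norm_num
  have hh := half_norm (θ := θ) hr0 hr1
  have hpos' : 0 < ‖1 + circleMap 0 r θ‖ := by linarith
  have hne : 1 + circleMap 0 r θ ≠ 0 := norm_pos_iff.mp hpos'
  have hrn : ‖circleMap 0 r θ‖ ≤ 1 := by simp [abs_of_nonneg hr0, hr1]
  have hre := cay_re_nonneg hc hrn hne
  set z := cay c (circleMap 0 r θ) with hz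
  have hzn : 1 + ‖z‖ ≤ (2 + 4 * c) / ‖1 + circleMap 0 1 θ‖ := by
    have h1 : ‖z‖ ≤ 2 * c / ‖1 + circleMap 0 r θ‖ := norm_cay_le hc hrn
    have h2 : 2 * c / ‖1 + circleMap 0 r θ‖ ≤ 2 * c / (‖1 + circleMap 0 1 θ‖ / 2) := by
      gcongr
    have h3 : 2 * c / (‖1 + circleMap 0 1 θ‖ / 2) = 4 * c / ‖1 + circleMap 0 1 θ‖ := by
      field_simp; ring
    have h4 : 1 ≤ 2 / ‖1 + circleMap 0 1 θ‖ := by rw [one_le_div hpos]; exact hle2
    have h5 : (2 + 4 * c) / ‖1 + circleMap 0 1 θ‖ = 2 / ‖1 + circleMap 0 1 θ‖ +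
        4 * c / ‖1 + circleMap 0 1 θ‖ := by ring
    rw [h5]
    linarith
  have h1z : 1 ≤ 1 + ‖z‖ := by linarith [norm_nonneg z]
  have hlog : Real.log (1 + ‖z‖) ≤ Real.log (2 + 4 * c) - Real.log ‖1 + circleMap 0 1 θ‖ := by
    rw [← Real.log_div (by positivity) hpos.ne']
    exact Real.log_le_log (by linarith) hzn
  have hlog0 : 0 ≤ Real.log (1 + ‖z‖) := Real.log_nonneg h1z
  have hlA : 0 ≤ Real.log A := Real.log_nonneg hA
  unfold maj
  by_cases hf0 : f z = 0
  · rw [hf0, norm_zero, Real.log_zero]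
    have : 0 ≤ Real.log (2 + 4 * c) - Real.log ‖1 + circleMap 0 1 θ‖ := hlog0.trans hlog
    positivity
  · have h1 := Real.log_le_log (norm_pos_iff.mpr hf0) (hg z hre)
    rw [Real.log_mul (by linarith) (Real.rpow_pos_of_pos (by linarith) _).ne',
      Real.log_rpow (by linarith)] at h1
    nlinarith

lemma maj_int (c A B : ℝ) : IntegrableOn (maj c A B) (Ioc 0 (2 * Real.pi)) := by
  have h1 : CircleIntegrable (fun z : ℂ => Real.log ‖1 + z‖) 0 1 := by
    apply MeromorphicOn.circleIntegrable_log_norm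
    intro z _
    have : AnalyticAt ℂ (fun z : ℂ => 1 + z) z := by fun_prop
    exact this.meromorphicAt
  have h2 : IntervalIntegrable (fun θ => Real.log ‖1 + circleMap 0 1 θ‖) volume 0 (2 * Real.pi) :=
    h1
  have h3 : IntervalIntegrable (maj c A B) volume 0 (2 * Real.pi) := by
    unfold maj
    exact (intervalIntegrable_const).add ((intervalIntegrable_const.sub h2).const_mul B)
  rwa [intervalIntegrable_iff_integrableOn_Ioc_of_le (by positivity)] at h3

/-- Almost everywhere on the circle the transported function does not vanish. -/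
lemma ae_good (hc : 0 < c) (hf : AnalyticOnNhd ℂ f {z | 0 ≤ z.re}) (hfc : f c ≠ 0) :
    ∀ᵐ θ ∂(volume.restrict (Ioc (0 : ℝ) (2 * Real.pi))),
      1 + circleMap 0 1 θ ≠ 0 ∧ f (cay c (circleMap 0 1 θ)) ≠ 0 := by
  have hord : ∀ w ∈ {z : ℂ | 0 ≤ z.re}, analyticOrderAt f w ≠ ⊤ := by
    intro w hw
    have hcm : (c : ℂ) ∈ {z : ℂ | 0 ≤ z.re} := by
      show (0 : ℝ) ≤ (c : ℂ).re
      simpa using hc.le
    have h2 : analyticOrderAt f (c : ℂ) ≠ ⊤ := by
      rw [(hf _ hcm).analyticOrderAt_eq_zero.mpr hfc]; simp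
    have hconv : Convex ℝ {z : ℂ | 0 ≤ z.re} := convex_halfSpace_re_ge 0
    exact hf.analyticOrderAt_ne_top_of_isPreconnected hconv.isPreconnected hcm hw h2
  have h1 : ∀ k : ℕ, ∀ᵐ θ ∂(volume.restrict (Ioc (0 : ℝ) (2 * Real.pi))),
      1 / ((k : ℝ) + 1) ≤ ‖1 + circleMap 0 1 θ‖ → f (cay c (circleMap 0 1 θ)) ≠ 0 := by
    intro k
    refine ae_circle (p := fun z => 1 / ((k : ℝ) + 1) ≤ ‖1 + z‖ → f (cay c z) ≠ 0) one_ne_zero ?_
    rw [Filter.Eventually, codiscreteWithin_iff_locallyFiniteComplementWithin]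
    intro z hz
    have hzn : ‖z‖ = 1 := by simpa using hz
    by_cases h0 : 1 + z = 0
    · have hk : (0 : ℝ) < 1 / ((k : ℝ) + 1) := by positivity
      refine ⟨{w | ‖1 + w‖ < 1 / ((k : ℝ) + 1)}, ?_, ?_⟩
      · have hcont : Continuous fun w : ℂ => ‖1 + w‖ := by fun_prop
        apply (isOpen_lt hcont continuous_const).mem_nhds
        show ‖1 + z‖ < 1 / ((k : ℝ) + 1)
        rw [h0, norm_zero]; exact hk
      · apply (Set.finite_empty).subset
        rintro w ⟨hw1, _, hw2⟩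
        exact hw2 (fun h => absurd hw1 (not_lt.mpr h))
    · have hre := cay_re_nonneg hc hzn.le h0
      have ho := analyticOrderAt_comp_of_deriv_ne_zero (f := f) (analyticAt_cay c h0)
        (deriv_cay_ne hc h0)
      have han : AnalyticAt ℂ (f ∘ cay c) z := (hf _ hre).comp (analyticAt_cay c h0)
      have hne : analyticOrderAt (f ∘ cay c) z ≠ ⊤ := by rw [ho]; exact hord _ hre
      have h6 : ∀ᶠ w in 𝓝[≠] z, (f ∘ cay c) w ≠ 0 := by
        rcases han.eventually_eq_zero_or_eventually_ne_zero with h | h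
        · exact absurd (analyticOrderAt_eq_top.mpr h) hne
        · exact h
      rw [eventually_nhdsWithin_iff] at h6
      refine ⟨{w | w ∈ ({z}ᶜ : Set ℂ) → (f ∘ cay c) w ≠ 0}, h6, ?_⟩
      apply (Set.finite_singleton z).subset
      rintro w ⟨hw1, _, hw2⟩
      by_contra hne
      exact hw2 (fun _ => hw1 hne)
  have h2 : ∀ᵐ θ ∂(volume.restrict (Ioc (0 : ℝ) (2 * Real.pi))), 1 + circleMap 0 1 θ ≠ 0 := by
    apply ae_restrict_of_ae
    have := (countable_singleton (-1 : ℂ)).preimage_circleMap 0 (one_ne_zero (α := ℝ))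
      |>.measure_zero volume
    filter_upwards [measure_eq_zero_iff_ae_notMem.mp this] with θ hθ h0
    apply hθ
    show circleMap 0 1 θ ∈ ({-1} : Set ℂ)
    rw [mem_singleton_iff]
    linear_combination h0
  filter_upwards [ae_all_iff.mpr h1, h2] with θ h3 h4
  refine ⟨h4, ?_⟩
  obtain ⟨k, hk⟩ := exists_nat_one_div_lt (norm_pos_iff.mpr h4)
  exact h3 k hk.le

end Pool.Agent.H26.ML
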