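import Mathlib

/-! The Poisson kernel of the half plane at the point `c`, and its tails. -/

set_option autoImplicit false

open MeasureTheory Set Filter Topology

namespace Pool.Agent.H26.ML

/-- The Poisson kernel (not normalised). -/
noncomputable def poi (c u : ℝ) : ℝ := c / (c ^ 2 + u ^ 2)

variable {c : ℝ}

lemma poi_pos (hc : 0 < c) (u : ℝ) : 0 < poi c u := by unfold poi; positivity

lemma poi_eq (hc : 0 < c) (u : ℝ) : poi c u = c⁻¹ * (1 + (u / c) ^ 2)⁻¹ := by
  unfold poi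
  field_simp

lemma poi_continuous (hc : 0 < c) : Continuous (poi c) := by
  unfold poi
  exact continuous_const.div (by fun_prop) fun u => by positivity

lemma poi_integrable (hc : 0 < c) : Integrable (poi c) := by
  have h1 := (integrable_inv_one_add_sq.comp_div hc.ne').const_mul c⁻¹
  exact h1.congr (by filter_upwards with u; rw [poi_eq hc])

lemma poi_integral (hc : 0 < c) : ∫ u, poi c u = Real.pi := by
  have h1 : ∀ u, poi c u = c⁻¹ * (fun x : ℝ => (1 + x ^ 2)⁻¹) (u / c) := fun u => poi_eq hc u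
  simp_rw [h1]
  rw [integral_const_mul, Measure.integral_comp_div (fun x : ℝ => (1 + x ^ 2)⁻¹) c,
    integral_univ_inv_one_add_sq, abs_of_pos hc, smul_eq_mul, inv_mul_cancel_left₀ hc.ne']

lemma poi_shift (hc : 0 < c) {R h : ℝ} (h0 : 0 ≤ h) (hR : h ≤ R) (v : ℝ) :
    poi c (v - h) ≤ (2 + 2 * R ^ 2 / c ^ 2) * poi c v := by
  unfold poi
  have h1 : c ^ 2 + v ^ 2 ≤ (2 + 2 * R ^ 2 / c ^ 2) * (c ^ 2 + (v - h) ^ 2) := by
    have h2 : (2 + 2 * R ^ 2 / c ^ 2) * (c ^ 2 + (v - h) ^ 2) =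
        2 * c ^ 2 + 2 * R ^ 2 + 2 * (v - h) ^ 2 + 2 * R ^ 2 / c ^ 2 * (v - h) ^ 2 := by
      field_simp
      ring
    have h3 : 0 ≤ 2 * R ^ 2 / c ^ 2 * (v - h) ^ 2 := by positivity
    have h4 : h ^ 2 ≤ R ^ 2 := by nlinarith
    rw [h2]
    nlinarith [sq_nonneg (v - 2 * h), sq_nonneg c]
  rw [mul_div_assoc', div_le_div_iff₀ (by positivity) (by positivity)]
  calc c * (c ^ 2 + v ^ 2) ≤ c * ((2 + 2 * R ^ 2 / c ^ 2) * (c ^ 2 + (v - h) ^ 2)) := by gcongr
    _ = _ := by ring

/-- The kernel with a logarithmic weight. -/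
noncomputable def poil (c u : ℝ) : ℝ := poi c u * (1 + Real.log (1 + |u|))

lemma poil_nonneg (hc : 0 < c) (u : ℝ) : 0 ≤ poil c u := by
  have h1 := poi_pos hc u
  have h2 : 0 ≤ Real.log (1 + |u|) := Real.log_nonneg (by have := abs_nonneg u; linarith)
  unfold poil
  positivity

lemma poil_continuous (hc : 0 < c) : Continuous (poil c) := by
  unfold poil
  refine (poi_continuous hc).mul (continuous_const.add (Continuous.log (by fun_prop) fun u => ?_))
  have := abs_nonneg u
  linarith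

lemma poil_integrable (hc : 0 < c) : Integrable (poil c) := by
  have h1 : Integrable (fun x : ℝ => (1 + ‖x‖) ^ (-(3 / 2 : ℝ))) :=
    integrable_one_add_norm (by simp; norm_num)
  have h2 := h1.const_mul (3 * (2 * (c + c⁻¹)))
  refine h2.mono' (poil_continuous hc).aestronglyMeasurable ?_
  filter_upwards with u
  rw [Real.norm_of_nonneg (poil_nonneg hc u), Real.norm_eq_abs]
  have hu := abs_nonneg u
  set y := 1 + |u| with hy
  have hy1 : 1 ≤ y := by linarith
  have hy0 : 0 < y := by linarith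
  have hlog : 1 + Real.log y ≤ 3 * y ^ (1 / 2 : ℝ) := by
    have h3 := Real.log_le_rpow_div hy0.le (by norm_num : (0:ℝ) < 1 / 2)
    have h4 : 1 ≤ y ^ (1 / 2 : ℝ) := Real.one_le_rpow hy1 (by norm_num)
    linarith
  have hpoi : poi c u ≤ 2 * (c + c⁻¹) * y ^ (-2 : ℝ) := by
    have e : y ^ (-2 : ℝ) = (y ^ 2)⁻¹ := by
      rw [Real.rpow_neg hy0.le]
      norm_num
    rw [e]
    unfold poi
    rw [← div_eq_mul_inv, div_le_div_iff₀ (by positivity) (by positivity)]
    have h5 : y ^ 2 ≤ 2 * (1 + u ^ 2) := by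
      rw [hy]
      nlinarith [sq_nonneg (1 - |u|), sq_abs u]
    have h6 : c * (1 + u ^ 2) ≤ (c + c⁻¹) * (c ^ 2 + u ^ 2) := by
      have h7 : (c + c⁻¹) * (c ^ 2 + u ^ 2) = c ^ 3 + c * u ^ 2 + c + c⁻¹ * u ^ 2 := by
        field_simp
        ring
      rw [h7]
      have : 0 ≤ c ^ 3 + c⁻¹ * u ^ 2 := by positivity
      linarith
    calc c * y ^ 2 ≤ c * (2 * (1 + u ^ 2)) := by gcongr
      _ = 2 * (c * (1 + u ^ 2)) := by ring
      _ ≤ 2 * ((c + c⁻¹) * (c ^ 2 + u ^ 2)) := by gcongr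
      _ = _ := by ring
  have hp := poi_pos hc u
  have e2 : y ^ (-(3 / 2 : ℝ)) = y ^ (-2 : ℝ) * y ^ (1 / 2 : ℝ) := by
    rw [← Real.rpow_add hy0]; norm_num
  unfold poil
  rw [e2]
  have hz : 0 < y ^ (1 / 2 : ℝ) := by positivity
  calc poi c u * (1 + Real.log y) ≤ poi c u * (3 * y ^ (1 / 2 : ℝ)) := by gcongr
    _ ≤ (2 * (c + c⁻¹) * y ^ (-2 : ℝ)) * (3 * y ^ (1 / 2 : ℝ)) := by gcongr
    _ = _ := by ring

/-- The tail of the weighted kernel. -/
noncomputable def tau (c T : ℝ) : ℝ := ∫ u, {u : ℝ | T < |u|}.indicator (poil c) u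

lemma tau_nonneg (hc : 0 < c) (T : ℝ) : 0 ≤ tau c T := by
  apply integral_nonneg
  intro u
  exact indicator_nonneg (fun x _ => poil_nonneg hc x) u

lemma measurableSet_tail (T : ℝ) : MeasurableSet {u : ℝ | T < |u|} :=
  measurableSet_lt measurable_const (by fun_prop)

lemma tail_integrable (hc : 0 < c) (T : ℝ) :
    Integrable ({u : ℝ | T < |u|}.indicator (poil c)) :=
  (poil_integrable hc).indicator (measurableSet_tail T)

lemma tau_tendsto (hc : 0 < c) : Tendsto (tau c) atTop (𝓝 0) := by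
  have h0 : (0 : ℝ) = ∫ _u : ℝ, (0 : ℝ) := by simp
  rw [h0]
  unfold tau
  refine tendsto_integral_filter_of_dominated_convergence (poil c) ?_ ?_ (poil_integrable hc) ?_
  · exact Eventually.of_forall fun T => (tail_integrable hc T).aestronglyMeasurable
  · refine Eventually.of_forall fun T => Eventually.of_forall fun u => ?_
    rw [norm_indicator_eq_indicator_norm]
    refine (indicator_le_self' (fun x _ => norm_nonneg _) u).trans ?_
    rw [Real.norm_of_nonneg (poil_nonneg hc u)]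
  · refine Eventually.of_forall fun u => ?_
    refine tendsto_const_nhds.congr' ?_
    filter_upwards [eventually_ge_atTop |u|] with T hT
    rw [indicator_of_notMem]
    simpa using hT

lemma exists_tau_le (hc : 0 < c) {ε : ℝ} (hε : 0 < ε) : ∃ T : ℝ, 0 ≤ T ∧ tau c T ≤ ε := by
  have h1 := (tau_tendsto hc).eventually (ge_mem_nhds hε)
  obtain ⟨T, hT1, hT2⟩ := (h1.and (eventually_ge_atTop 0)).exists
  exact ⟨T, hT2, hT1⟩

end Pool.Agent.H26.ML
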