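import Pool.Agent.H26.ML.HalfPlane
import Pool.Agent.H26.ML.Poi

/-! Zeros in the half plane from the logarithmic means over windows of the boundary. -/

set_option autoImplicit false

open Complex MeasureTheory Set Filter Topology

namespace Pool.Agent.H26.ML

variable {c R : ℝ} {φ : ℝ → ℝ}

section fubini

lemma slice_int (hc : 0 < c) (hm : Measurable φ)
    (hP : Integrable fun v => poi c v * φ v) {h : ℝ} (h0 : 0 ≤ h) (hR : h ≤ R) :
    Integrable (fun v => poi c (v - h) * φ v) := by
  refine (hP.norm.const_mul (2 + 2 * R ^ 2 / c ^ 2)).mono' ?_ ?_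
  · exact (((poi_continuous hc).comp (by fun_prop : Continuous fun v : ℝ => v - h)).measurable.mul
      hm).aestronglyMeasurable
  · filter_upwards with v
    have h1 := poi_shift hc h0 hR v
    have h2 := poi_pos hc (v - h)
    have h3 := poi_pos hc v
    rw [norm_mul, norm_mul, Real.norm_of_nonneg h2.le, Real.norm_of_nonneg h3.le, ← mul_assoc]
    gcongr

lemma slice_bound (hc : 0 < c) (hm : Measurable φ)
    (hP : Integrable fun v => poi c v * φ v) {h : ℝ} (h0 : 0 ≤ h) (hR : h ≤ R) :
    ∫ u, ‖poi c u * φ (u + h)‖ ≤ (2 + 2 * R ^ 2 / c ^ 2) * ∫ v, ‖poi c v * φ v‖ := by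
  have h1 : ∫ u, ‖poi c u * φ (u + h)‖ = ∫ v, ‖poi c (v - h) * φ v‖ := by
    rw [← integral_add_right_eq_self (fun v => ‖poi c (v - h) * φ v‖) h]
    simp
  rw [h1, ← integral_const_mul]
  refine integral_mono (slice_int hc hm hP h0 hR).norm (hP.norm.const_mul _) fun v => ?_
  have h1 := poi_shift hc h0 hR v
  have h2 := poi_pos hc (v - h)
  have h3 := poi_pos hc v
  simp only
  rw [norm_mul, norm_mul, Real.norm_of_nonneg h2.le, Real.norm_of_nonneg h3.le, ← mul_assoc]
  gcongr

lemma prod_int (hc : 0 < c) (hm : Measurable φ)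
    (hP : Integrable fun v => poi c v * φ v) :
    Integrable (Function.uncurry fun h u : ℝ => poi c u * φ (u + h))
      ((volume.restrict (Ioc 0 R)).prod volume) := by
  have hmeas : Measurable (Function.uncurry fun h u : ℝ => poi c u * φ (u + h)) := by
    have h1 : Measurable fun p : ℝ × ℝ => poi c p.2 := (poi_continuous hc).measurable.comp
      measurable_snd
    have h2 : Measurable fun p : ℝ × ℝ => φ (p.2 + p.1) := hm.comp
      (measurable_snd.add measurable_fst)
    exact h1.mul h2
  have hae := hmeas.aestronglyMeasurable (μ := (volume.restrict (Ioc 0 R)).prod volume)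
  rw [integrable_prod_iff hae]
  constructor
  · filter_upwards [ae_restrict_mem measurableSet_Ioc] with h hh
    have h1 := (slice_int hc hm hP hh.1.le hh.2).comp_add_right h
    simpa [Function.uncurry] using h1
  · have h2 := hae.norm.integral_prod_right'
    refine Integrable.mono' (integrable_const ((2 + 2 * R ^ 2 / c ^ 2) * ∫ v, ‖poi c v * φ v‖))
      h2 ?_
    filter_upwards [ae_restrict_mem measurableSet_Ioc] with h hh
    rw [Real.norm_of_nonneg (integral_nonneg fun _ => norm_nonneg _)]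
    exact slice_bound hc hm hP hh.1.le hh.2

lemma fubini_window (hc : 0 < c) (hR : 0 ≤ R) (hm : Measurable φ)
    (hP : Integrable fun v => poi c v * φ v) :
    IntegrableOn (fun h => ∫ u, poi c u * φ (u + h)) (Ioc 0 R) ∧
      Integrable (fun u => poi c u * ∫ v in u..u + R, φ v) ∧
      ∫ h in Ioc 0 R, ∫ u, poi c u * φ (u + h) = ∫ u, poi c u * ∫ v in u..u + R, φ v := by
  have h1 := prod_int (R := R) hc hm hP
  have key : ∀ u : ℝ, ∫ h in Ioc 0 R, poi c u * φ (u + h) = poi c u * ∫ v in u..u + R, φ v := by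
    intro u
    rw [integral_const_mul, ← intervalIntegral.integral_of_le hR,
      intervalIntegral.integral_comp_add_left (fun x => φ x) u, add_zero]
  refine ⟨h1.integral_prod_left, ?_, ?_⟩
  · have h2 := h1.integral_prod_right
    refine h2.congr ?_
    filter_upwards with u
    exact key u
  · rw [integral_integral_swap h1]
    exact integral_congr_ae (by filter_upwards with u; exact key u)

end fubini

/-- Upper bound for the weighted windows. -/
lemma window_le (hc : 0 < c) (hR : 0 ≤ R) {w T E : ℝ} (hw : 0 ≤ w) (hE : 0 ≤ E)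
    (hint : Integrable (fun u => poi c u * ∫ v in u..u + R, φ v))
    (hin : ∀ u : ℝ, |u| ≤ T → ∫ v in u..u + R, φ v ≤ w)
    (hout : ∀ u : ℝ, T < |u| → ∫ v in u..u + R, φ v ≤ R * E * (1 + Real.log (1 + |u|))) :
    ∫ u, poi c u * ∫ v in u..u + R, φ v ≤ Real.pi * w + R * E * tau c T := by
  have h1 : ∫ u, (w * poi c u + R * E * {u : ℝ | T < |u|}.indicator (poil c) u) =
      Real.pi * w + R * E * tau c T := by
    rw [integral_add ((poi_integrable hc).const_mul w) ((tail_integrable hc T).const_mul _),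
      integral_const_mul, integral_const_mul, poi_integral hc, tau]
    ring
  rw [← h1]
  refine integral_mono hint (((poi_integrable hc).const_mul w).add
    ((tail_integrable hc T).const_mul _)) fun u => ?_
  have hp := poi_pos hc u
  simp only
  by_cases hu : |u| ≤ T
  · have h2 := hin u hu
    have h3 : 0 ≤ R * E * {u : ℝ | T < |u|}.indicator (poil c) u :=
      mul_nonneg (mul_nonneg hR hE) (indicator_nonneg (fun x _ => poil_nonneg hc x) u)
    calc poi c u * ∫ v in u..u + R, φ v ≤ poi c u * w := by gcongr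
      _ ≤ _ := by linarith
  · push Not at hu
    have h2 := hout u hu
    rw [indicator_of_mem (show u ∈ {u : ℝ | T < |u|} from hu)]
    calc poi c u * ∫ v in u..u + R, φ v ≤ poi c u * (R * E * (1 + Real.log (1 + |u|))) := by gcongr
      _ = R * E * poil c u := by unfold poil; ring
      _ ≤ _ := by
        have : 0 ≤ w * poi c u := by positivity
        linarith

/-- The distance of a point of the half plane to the centre. -/
lemma log_ratio_ge (hc : 0 < c) {δ : ℝ} (hδ : 0 ≤ δ) {z : ℂ} (h1 : δ ≤ z.re) (h2 : z.re < c)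
    (h3 : |z.im| ≤ 1) :
    1 / 2 * Real.log (1 + 4 * c * δ / (c ^ 2 + 1)) ≤
      Real.log (‖(c : ℂ) + z‖ / ‖(c : ℂ) - z‖) := by
  have hn1 : ‖(c : ℂ) + z‖ ^ 2 = (c + z.re) ^ 2 + z.im ^ 2 := by
    rw [← normSq_eq_norm_sq, normSq_apply]; simp; ring
  have hn2 : ‖(c : ℂ) - z‖ ^ 2 = (c - z.re) ^ 2 + z.im ^ 2 := by
    rw [← normSq_eq_norm_sq, normSq_apply]; simp; ring
  have hpos : 0 < ‖(c : ℂ) - z‖ ^ 2 := by
    rw [hn2]
    have : 0 < c - z.re := by linarith
    positivity
  have hle : ‖(c : ℂ) - z‖ ^ 2 ≤ c ^ 2 + 1 := by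
    rw [hn2]
    have h4 : z.im ^ 2 ≤ 1 := by
      rw [← sq_abs]
      nlinarith [abs_nonneg z.im]
    nlinarith
  have e2 : Real.log (‖(c : ℂ) + z‖ / ‖(c : ℂ) - z‖) =
      1 / 2 * Real.log ((‖(c : ℂ) + z‖ / ‖(c : ℂ) - z‖) ^ 2) := by
    rw [Real.log_pow]; push_cast; ring
  rw [e2]
  have h5 : 1 + 4 * c * δ / (c ^ 2 + 1) ≤ (‖(c : ℂ) + z‖ / ‖(c : ℂ) - z‖) ^ 2 := by
    rw [div_pow]
    have h6 : ‖(c : ℂ) + z‖ ^ 2 / ‖(c : ℂ) - z‖ ^ 2 = 1 + 4 * c * z.re / ‖(c : ℂ) - z‖ ^ 2 := by
      rw [div_eq_iff hpos.ne', add_mul, div_mul_cancel₀ _ hpos.ne', hn1, hn2]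
      ring
    have hz : 0 ≤ z.re := hδ.trans h1
    rw [h6]
    gcongr
  have : 0 < 1 + 4 * c * δ / (c ^ 2 + 1) := by positivity
  gcongr

lemma log_ratio_nonneg (hc : 0 < c) {z : ℂ} (h1 : 0 ≤ z.re) (h2 : z.re < c) :
    0 ≤ Real.log (‖(c : ℂ) + z‖ / ‖(c : ℂ) - z‖) := by
  apply Real.log_nonneg
  have hpos : 0 < ‖(c : ℂ) - z‖ := by
    rw [norm_pos_iff, sub_ne_zero]
    rintro rfl
    simp at h2
  rw [le_div_iff₀ hpos, one_mul]
  have h3 : ‖(c : ℂ) - z‖ ^ 2 ≤ ‖(c : ℂ) + z‖ ^ 2 := by
    rw [← normSq_eq_norm_sq, normSq_apply, ← normSq_eq_norm_sq, normSq_apply]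
    simp
    nlinarith
  exact (pow_le_pow_iff_left₀ (norm_nonneg _) (norm_nonneg _) two_ne_zero).mp h3

/-- **Zeros from logarithmic means over windows.** -/
theorem zeros_of_windows {f : ℂ → ℂ} {A B ℓ w T δ : ℝ} (hc : 0 < c) (hA : 1 ≤ A) (hB : 0 ≤ B)
    (hR : 1 ≤ R) (hδ : 0 ≤ δ) (hw : 0 ≤ w)
    (hf : AnalyticOnNhd ℂ f {z | 0 ≤ z.re})
    (hg : ∀ z : ℂ, 0 ≤ z.re → ‖f z‖ ≤ A * (1 + ‖z‖) ^ B)
    (hne : ∀ h : ℝ, 0 ≤ h → h ≤ R → f (c + h * I) ≠ 0)
    (hl : ∀ h : ℝ, 0 ≤ h → h ≤ R → ℓ ≤ Real.log ‖f (c + h * I)‖)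
    (hwin : ∀ u : ℝ, |u| ≤ T → ∫ v in u..u + R, Real.log ‖f (v * I)‖ ≤ w)
    (W : Finset ℂ) (hW : ∀ z ∈ W, δ ≤ z.re ∧ 0 < z.re ∧ z.re < c ∧ 0 ≤ z.im ∧ z.im ≤ 1) :
    Real.pi * (1 / 2 * Real.log (1 + 4 * c * δ / (c ^ 2 + 1)) *
        ((∑ z ∈ W, analyticOrderNatAt f z : ℕ) : ℝ) + R * ℓ) ≤
      Real.pi * w + R * (Real.log A + B * Real.log (1 + R) + B) * tau c T := by
  have hπ := Real.pi_pos
  have hR0 : 0 < R := by linarith
  set φ : ℝ → ℝ := fun v => Real.log ‖f (v * I)‖ with hφ
  have hcont : Continuous fun v : ℝ => f (v * I) := by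
    rw [continuous_iff_continuousAt]
    intro v
    have h1 : ContinuousAt f (v * I) := (hf (v * I) (by simp)).continuousAt
    exact h1.comp (f := fun v : ℝ => (v : ℂ) * I) (by fun_prop)
  have hm : Measurable φ := Real.measurable_log.comp hcont.norm.measurable
  -- Jensen's formula, centre `c + h I`
  have hJ : ∀ h : ℝ, 0 ≤ h → h ≤ R → ∀ Z : Finset ℂ, (∀ z ∈ Z, 0 < z.re) →
      Integrable (fun u : ℝ => poi c u * φ (u + h)) ∧
      Real.pi * (∑ z ∈ Z, (analyticOrderNatAt (fun z => f (z + h * I)) z : ℝ) *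
        Real.log (‖(c : ℂ) + z‖ / ‖(c : ℂ) - z‖) + Real.log ‖f (c + h * I)‖) ≤
        ∫ u : ℝ, poi c u * φ (u + h) := by
    intro h h0 hhR Z hZ
    have hA' : 1 ≤ A * (1 + R) ^ B :=
      one_le_mul_of_one_le_of_one_le hA (Real.one_le_rpow (by linarith) hB)
    have := halfplane_jensen (f := fun z => f (z + h * I)) hc hA' hB (fun z hz => by
        have h1 : AnalyticAt ℂ f (z + h * I) := hf _ (by simpa using hz)
        exact h1.fun_comp (f := fun z : ℂ => z + h * I) (by fun_prop)) (fun z hz => by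
        refine (hg _ (by simpa using hz)).trans ?_
        rw [mul_assoc]
        refine mul_le_mul_of_nonneg_left ?_ (by linarith)
        rw [← Real.mul_rpow (by linarith) (by positivity)]
        refine Real.rpow_le_rpow (by positivity) ?_ hB
        have h1 : ‖z + h * I‖ ≤ ‖z‖ + h := by
          refine (norm_add_le _ _).trans ?_
          simp [abs_of_nonneg h0]
        have h2 := norm_nonneg z
        nlinarith) (hne h h0 hhR) Z hZ
    have e : (fun u : ℝ => c / (c ^ 2 + u ^ 2) * Real.log ‖f (u * I + h * I)‖) =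
        fun u : ℝ => poi c u * φ (u + h) := by
      funext u
      simp only [hφ, poi]
      congr 4
      push_cast
      ring
    rw [e] at this
    exact this
  -- integrability
  have hP : Integrable fun v => poi c v * φ v := by
    have := (hJ 0 le_rfl hR0.le ∅ (by simp)).1
    simpa using this
  obtain ⟨hi1, hi2, hi3⟩ := fubini_window hc hR0.le hm hP
  -- the windows
  have hE : 0 ≤ Real.log A + B * Real.log (1 + R) + B := by
    have h1 := Real.log_nonneg hA
    have h2 : 0 ≤ Real.log (1 + R) := Real.log_nonneg (by linarith)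
    positivity
  have hφle : ∀ v : ℝ, φ v ≤ Real.log A + B * Real.log (1 + |v|) := by
    intro v
    have h1 := Real.log_nonneg hA
    have hv := abs_nonneg v
    have h2 : 0 ≤ Real.log (1 + |v|) := Real.log_nonneg (by linarith)
    simp only [hφ]
    rcases (norm_nonneg (f (v * I))).eq_or_lt with h3 | h3
    · rw [← h3, Real.log_zero]
      positivity
    · have h4 := hg (v * I) (by simp)
      have h5 : ‖(v : ℂ) * I‖ = |v| := by simp
      rw [h5] at h4
      have h6 := Real.log_le_log h3 h4
      rw [Real.log_mul (by linarith) (by positivity), Real.log_rpow (by linarith)] at h6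
      exact h6
  have hφint : ∀ a b : ℝ, IntervalIntegrable φ volume a b := by
    intro a b
    have h1 : ContinuousOn (fun v => (poi c v)⁻¹) (uIcc a b) :=
      ((poi_continuous hc).inv₀ fun v => (poi_pos hc v).ne').continuousOn
    have h2 := (hP.intervalIntegrable (a := a) (b := b)).continuousOn_mul h1
    refine h2.congr fun v _ => ?_
    show (poi c v)⁻¹ * (poi c v * φ v) = φ v
    rw [inv_mul_cancel_left₀ (poi_pos hc v).ne']
  have hout : ∀ u : ℝ, T < |u| → ∫ v in u..u + R, φ v ≤
      R * (Real.log A + B * Real.log (1 + R) + B) * (1 + Real.log (1 + |u|)) := by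
    intro u _
    have hu := abs_nonneg u
    have hlu : 0 ≤ Real.log (1 + |u|) := Real.log_nonneg (by linarith)
    have hlA := Real.log_nonneg hA
    have hlR : 0 ≤ Real.log (1 + R) := Real.log_nonneg (by linarith)
    have h1 : ∫ v in u..u + R, φ v ≤ ∫ v in u..u + R,
        (Real.log A + B * Real.log (1 + R) + B) * (1 + Real.log (1 + |u|)) := by
      refine intervalIntegral.integral_mono_on (by linarith) (hφint _ _) (by simp) fun v hv => ?_
      refine (hφle v).trans ?_
      have h2 : |v| ≤ |u| + R := by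
        have h3 : |v - u| ≤ R := by
          rw [abs_of_nonneg (by linarith [hv.1])]
          linarith [hv.2]
        have h4 := abs_add_le u (v - u)
        rw [add_sub_cancel] at h4
        linarith
      have h5 : Real.log (1 + |v|) ≤ Real.log (1 + R) + Real.log (1 + |u|) := by
        rw [← Real.log_mul (by linarith) (by linarith)]
        apply Real.log_le_log
        · have := abs_nonneg v
          linarith
        · nlinarith
      have h6 : B * Real.log (1 + |v|) ≤ B * (Real.log (1 + R) + Real.log (1 + |u|)) := by gcongr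
      nlinarith [mul_nonneg hlA hlu, mul_nonneg (mul_nonneg hB hlR) hlu]
    refine h1.trans ?_
    rw [intervalIntegral.integral_const, smul_eq_mul, add_sub_cancel_left]
    rw [mul_assoc]
  have hup := window_le (T := T) hc hR0.le hw hE hi2 hwin hout
  rw [← hi3] at hup
  refine le_trans ?_ hup
  -- lower bound
  set G := 1 / 2 * Real.log (1 + 4 * c * δ / (c ^ 2 + 1)) with hG
  have hG0 : 0 ≤ G := by
    have : 0 ≤ Real.log (1 + 4 * c * δ / (c ^ 2 + 1)) := by
      apply Real.log_nonneg
      have : 0 ≤ 4 * c * δ / (c ^ 2 + 1) := by positivity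
      linarith
    rw [hG]
    positivity
  set n : ℝ := ((∑ z ∈ W, analyticOrderNatAt f z : ℕ) : ℝ) with hn
  have hn0 : 0 ≤ n := by positivity
  have hlow : ∀ h ∈ Ioc 0 R, Real.pi * ((Ioc (0:ℝ) 1).indicator (fun _ => G * n) h + ℓ) ≤
      ∫ u : ℝ, poi c u * φ (u + h) := by
    intro h hh
    have h0 := hh.1.le
    have h1 := (hJ h h0 hh.2 (W.map ⟨fun z => z - h * I, sub_left_injective⟩) (by
      intro z hz
      rw [Finset.mem_map] at hz
      obtain ⟨w, hw, rfl⟩ := hz
      simpa using (hW w hw).2.1)).2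
    refine le_trans ?_ h1
    refine mul_le_mul_of_nonneg_left ?_ hπ.le
    refine add_le_add ?_ (hl h h0 hh.2)
    rw [Finset.sum_map]
    simp only [Function.Embedding.coeFn_mk]
    have hord : ∀ w : ℂ, analyticOrderNatAt (fun z => f (z + h * I)) (w - h * I) =
        analyticOrderNatAt f w := by
      intro w
      have h2 : AnalyticAt ℂ (fun z : ℂ => z + h * I) (w - h * I) := by fun_prop
      have h3 : deriv (fun z : ℂ => z + h * I) (w - h * I) ≠ 0 := by simp
      have h4 := analyticOrderAt_comp_of_deriv_ne_zero (f := f) h2 h3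
      have h5 : (f ∘ fun z : ℂ => z + h * I) = fun z => f (z + h * I) := rfl
      rw [h5, sub_add_cancel] at h4
      rw [analyticOrderNatAt, analyticOrderNatAt, h4]
    by_cases h1' : h ≤ 1
    · rw [indicator_of_mem (show h ∈ Ioc (0:ℝ) 1 from ⟨hh.1, h1'⟩), hn]
      push_cast
      rw [Finset.mul_sum]
      refine Finset.sum_le_sum fun w hw => ?_
      rw [hord, mul_comm]
      obtain ⟨a1, a2, a3, a4, a5⟩ := hW w hw
      refine mul_le_mul_of_nonneg_left ?_ (by positivity)
      refine log_ratio_ge hc hδ (by simpa using a1) (by simpa using a3) ?_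
      simp only [sub_im, mul_im, ofReal_re, I_im, mul_one, ofReal_im, I_re, mul_zero, add_zero]
      rw [abs_le]
      constructor <;> linarith [hh.1]
    · rw [indicator_of_notMem (fun h => h1' h.2)]
      refine Finset.sum_nonneg fun w hw => ?_
      obtain ⟨a1, a2, a3, a4, a5⟩ := hW w hw
      refine mul_nonneg (by positivity) (log_ratio_nonneg hc (by simpa using a2.le)
        (by simpa using a3))
  have hind : IntegrableOn (fun h => Real.pi * ((Ioc (0:ℝ) 1).indicator (fun _ => G * n) h + ℓ))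
      (Ioc 0 R) := by
    refine Integrable.const_mul (Integrable.add ?_ (integrable_const ℓ)) _
    exact (integrable_const (G * n)).indicator measurableSet_Ioc
  have h2 := setIntegral_mono_on hind hi1 measurableSet_Ioc hlow
  refine le_trans (le_of_eq ?_) h2
  rw [integral_const_mul, integral_add ((integrable_const (G * n)).indicator measurableSet_Ioc)
    (integrable_const ℓ), integral_indicator measurableSet_Ioc, Measure.restrict_restrict
    measurableSet_Ioc, Ioc_inter_Ioc, max_self, min_eq_left hR, setIntegral_const,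
    setIntegral_const]
  simp only [Real.volume_real_Ioc, sub_zero, max_eq_left zero_le_one, max_eq_left hR0.le,
    smul_eq_mul, one_mul]

end Pool.Agent.H26.ML
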