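import Mathlib

/-! Jensen's inequality for finitely many zeros in a disc. -/

set_option autoImplicit false

open Set Filter Topology Metric MeasureTheory

namespace Pool.Agent.H26.ML

open MeromorphicOn in
/-- Jensen's formula with finitely many of the zeros in the disc. -/
theorem disc_jensen {F : ℂ → ℂ} {r : ℝ} (hr : 0 < r)
    (hF : AnalyticOnNhd ℂ F (closedBall 0 r)) (h0 : F 0 ≠ 0) (W : Finset ℂ)
    (hW : ∀ w ∈ W, w ∈ closedBall (0 : ℂ) r) :
    ∑ w ∈ W, (analyticOrderNatAt F w : ℝ) * Real.log (r / ‖w‖) + Real.log ‖F 0‖ ≤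
      Real.circleAverage (fun z => Real.log ‖F z‖) 0 r := by
  classical
  have hr' : |r| = r := abs_of_pos hr
  have hF' : AnalyticOnNhd ℂ F (closedBall 0 |r|) := by rwa [hr']
  rw [hF'.circleAverage_log_norm hr.ne' h0]
  have hnn : ∀ u : ℂ, 0 ≤ (divisor F (closedBall 0 |r|) u : ℝ) * Real.log (r * ‖0 - u‖⁻¹) := by
    intro u
    by_cases hu : u ∈ closedBall (0 : ℂ) |r|
    · have h1 : 0 ≤ (divisor F (closedBall 0 |r|) u : ℝ) := by
        have := AnalyticOnNhd.divisor_nonneg hF'
        exact_mod_cast this u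
      have h2 : 0 ≤ Real.log (r * ‖0 - u‖⁻¹) := by
        by_cases hcu : u = 0
        · simp [hcu]
        · apply Real.log_nonneg
          have h3 : 0 < ‖(0 : ℂ) - u‖ := norm_pos_iff.mpr (by simpa using hcu)
          rw [← div_eq_mul_inv, one_le_div h3]
          rw [mem_closedBall, dist_eq_norm, hr', sub_zero] at hu
          simpa using hu
      positivity
    · have : divisor F (closedBall 0 |r|) u = 0 :=
        Function.locallyFinsuppWithin.apply_eq_zero_of_notMem _ hu
      rw [this]
      simp
  have hfin : (Function.support fun u => (divisor F (closedBall 0 |r|) u : ℝ) *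
      Real.log (r * ‖0 - u‖⁻¹)).Finite := by
    apply ((divisor F (closedBall 0 |r|)).finiteSupport (isCompact_closedBall _ _)).subset
    intro u hu
    rw [Function.mem_support] at hu ⊢
    intro h
    apply hu
    rw [h]
    simp
  have hsub : (Function.support fun u => (divisor F (closedBall 0 |r|) u : ℝ) *
      Real.log (r * ‖0 - u‖⁻¹)) ⊆ ((hfin.toFinset ∪ W : Finset ℂ) : Set ℂ) := by
    intro u hu
    rw [Finset.coe_union]
    exact Or.inl (by simpa using hu)
  rw [finsum_eq_sum_of_support_subset _ hsub]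
  have h1 : ∑ w ∈ W, (analyticOrderNatAt F w : ℝ) * Real.log (r / ‖w‖) =
      ∑ w ∈ W, (divisor F (closedBall 0 |r|) w : ℝ) * Real.log (r * ‖0 - w‖⁻¹) := by
    refine Finset.sum_congr rfl fun w hw => ?_
    have hw' : w ∈ closedBall (0 : ℂ) |r| := by rw [hr']; exact hW w hw
    have h2 : ((analyticOrderAt F w).map (Nat.cast : ℕ → ℤ)).untop₀ =
        (analyticOrderNatAt F w : ℤ) := by
      unfold analyticOrderNatAt
      generalize analyticOrderAt F w = e
      cases e with
      | top => simp
      | coe n => simp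
    rw [hF'.divisor_apply hw', zero_sub, norm_neg, div_eq_mul_inv, h2, Int.cast_natCast]
  rw [h1]
  have h2 := Finset.sum_le_sum_of_subset_of_nonneg (Finset.subset_union_right (s₁ := hfin.toFinset)
    (s₂ := W)) (f := fun w => (divisor F (closedBall 0 |r|) w : ℝ) * Real.log (r * ‖0 - w‖⁻¹))
    (fun u _ _ => hnn u)
  linarith

end Pool.Agent.H26.ML
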