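import Pool.Agent.H26.ML.Circ

/-! Jensen's inequality in the right half plane: the limit on the boundary circle. -/

set_option autoImplicit false

open Set Filter Topology Metric MeasureTheory

namespace Pool.Agent.H26.ML

variable {f : ℂ → ℂ} {c A B : ℝ}

/-- radii tending to one -/
noncomputable def rad (n : ℕ) : ℝ := 1 - 1 / ((n : ℝ) + 2)

lemma rad_pos (n : ℕ) : 0 < rad n := by
  unfold rad
  have : 1 / ((n : ℝ) + 2) ≤ 1 / 2 := by
    apply one_div_le_one_div_of_le (by norm_num)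
    have : (0 : ℝ) ≤ n := Nat.cast_nonneg n
    linarith
  linarith

lemma rad_lt (n : ℕ) : rad n < 1 := by
  unfold rad
  have : 0 < 1 / ((n : ℝ) + 2) := by positivity
  linarith

lemma rad_tendsto : Tendsto rad atTop (𝓝 1) := by
  have h1 : Tendsto (fun n : ℕ => 1 / ((n : ℝ) + 2)) atTop (𝓝 0) := by
    have h2 : Tendsto (fun n : ℕ => (n : ℝ) + 2) atTop atTop :=
      tendsto_atTop_add_const_right _ _ tendsto_natCast_atTop_atTop
    exact (tendsto_inv_atTop_zero.comp h2).congr fun n => by simp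
  have h3 := (tendsto_const_nhds (x := (1 : ℝ))).sub h1
  rw [sub_zero] at h3
  exact h3

/-- the sum over the zeros at radius `r` -/
noncomputable def zsum (f : ℂ → ℂ) (c : ℝ) (Z : Finset ℂ) (r : ℝ) : ℝ :=
  ∑ z ∈ Z, (analyticOrderNatAt f z : ℝ) * Real.log (r / ‖yac c z‖)

lemma an_comp (hc : 0 < c) (hf : AnalyticOnNhd ℂ f {z | 0 ≤ z.re}) {ζ : ℂ} (h : ‖ζ‖ < 1) :
    AnalyticAt ℂ (fun ζ => f (cay c ζ)) ζ :=
  (hf _ (cay_re_pos hc h).le).comp (analyticAt_cay c (one_add_ne_of_lt h))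

lemma circ_low (hc : 0 < c) (hf : AnalyticOnNhd ℂ f {z | 0 ≤ z.re}) (hfc : f c ≠ 0)
    (Z : Finset ℂ) (hZ : ∀ z ∈ Z, 0 < z.re) {n : ℕ} (hn : ∀ z ∈ Z, ‖yac c z‖ ≤ rad n) :
    zsum f c Z (rad n) + Real.log ‖f c‖ ≤
      Real.circleAverage (fun ζ => Real.log ‖f (cay c ζ)‖) 0 (rad n) := by
  classical
  have hF : AnalyticOnNhd ℂ (fun ζ => f (cay c ζ)) (closedBall 0 (rad n)) := by
    intro ζ hζ
    rw [mem_closedBall, dist_eq_norm, sub_zero] at hζ
    exact an_comp hc hf (hζ.trans_lt (rad_lt n))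
  have h0 : f (cay c 0) ≠ 0 := by rw [cay_zero]; exact hfc
  have h1 := disc_jensen (rad_pos n) hF h0 (Z.image (yac c)) (by
    intro w hw
    rw [Finset.mem_image] at hw
    obtain ⟨z, hz, rfl⟩ := hw
    rw [mem_closedBall, dist_eq_norm, sub_zero]
    exact hn z hz)
  rw [Finset.sum_image] at h1
  · rw [cay_zero] at h1
    refine le_trans (le_of_eq ?_) h1
    unfold zsum
    congr 1
    refine Finset.sum_congr rfl fun z hz => ?_
    rw [order_comp_cay hc f (hZ z hz)]
  · intro z hz z' hz' h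
    rw [← cay_yac hc (hZ z hz).le, ← cay_yac hc (hZ z' hz').le, h]

/-- the boundary function -/
noncomputable def bdry (f : ℂ → ℂ) (c : ℝ) (r θ : ℝ) : ℝ := Real.log ‖f (cay c (circleMap 0 r θ))‖

lemma bdry_int (hc : 0 < c) (hf : AnalyticOnNhd ℂ f {z | 0 ≤ z.re}) (n : ℕ) :
    IntegrableOn (bdry f c (rad n)) (Ioc 0 (2 * Real.pi)) := by
  have h1 : CircleIntegrable (fun ζ => Real.log ‖f (cay c ζ)‖) 0 (rad n) := by
    apply MeromorphicOn.circleIntegrable_log_norm
    intro z hz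
    have hzn : ‖z‖ < 1 := by
      rw [mem_sphere, dist_eq_norm, sub_zero, abs_of_pos (rad_pos n)] at hz
      rw [hz]; exact rad_lt n
    exact (an_comp hc hf hzn).meromorphicAt
  have h2 : IntervalIntegrable (bdry f c (rad n)) volume 0 (2 * Real.pi) := h1
  rwa [intervalIntegrable_iff_integrableOn_Ioc_of_le (by positivity)] at h2

lemma tendsto_bdry (hc : 0 < c) (hf : AnalyticOnNhd ℂ f {z | 0 ≤ z.re}) {θ : ℝ}
    (h0 : 1 + circleMap 0 1 θ ≠ 0) (h1 : f (cay c (circleMap 0 1 θ)) ≠ 0) :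
    Tendsto (fun n => bdry f c (rad n) θ) atTop (𝓝 (bdry f c 1 θ)) := by
  have hn : ‖circleMap 0 1 θ‖ ≤ 1 := by simp
  have hre := cay_re_nonneg hc hn h0
  have hcont : ContinuousAt (fun ζ => f (cay c ζ)) (circleMap 0 1 θ) :=
    ((hf _ hre).continuousAt).comp (f := cay c) (analyticAt_cay c h0).continuousAt
  have hcirc : Tendsto (fun n => circleMap 0 (rad n) θ) atTop (𝓝 (circleMap 0 1 θ)) := by
    unfold circleMap
    have h3 : Tendsto (fun n => ((rad n : ℝ) : ℂ)) atTop (𝓝 ((1 : ℝ) : ℂ)) :=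
      (Complex.continuous_ofReal.tendsto 1).comp rad_tendsto
    exact tendsto_const_nhds.add (h3.mul tendsto_const_nhds)
  have h4 := (hcont.tendsto.comp hcirc).norm
  exact (Real.continuousAt_log (norm_ne_zero_iff.mpr h1)).tendsto.comp h4

/-- **Jensen's inequality in the half plane, on the circle.** -/
theorem jensen_circle (hc : 0 < c) (hA : 1 ≤ A) (hB : 0 ≤ B)
    (hf : AnalyticOnNhd ℂ f {z | 0 ≤ z.re})
    (hg : ∀ z : ℂ, 0 ≤ z.re → ‖f z‖ ≤ A * (1 + ‖z‖) ^ B) (hfc : f c ≠ 0)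
    (Z : Finset ℂ) (hZ : ∀ z ∈ Z, 0 < z.re) :
    IntegrableOn (bdry f c 1) (Ioc 0 (2 * Real.pi)) ∧
      2 * Real.pi * (zsum f c Z 1 + Real.log ‖f c‖) ≤
        ∫ θ in Ioc 0 (2 * Real.pi), bdry f c 1 θ := by
  have hπ := Real.pi_pos
  set μ := volume.restrict (Ioc (0 : ℝ) (2 * Real.pi)) with hμ
  have hH : Integrable (maj c A B) μ := maj_int c A B
  have hgood := ae_good hc hf hfc
  have hGn : ∀ n, Integrable (bdry f c (rad n)) μ := bdry_int hc hf
  have htend : ∀ᵐ θ ∂μ, Tendsto (fun n => bdry f c (rad n) θ) atTop (𝓝 (bdry f c 1 θ)) := by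
    filter_upwards [hgood] with θ hθ
    exact tendsto_bdry hc hf hθ.1 hθ.2
  have hmeas : AEMeasurable (bdry f c 1) μ :=
    aemeasurable_of_tendsto_metrizable_ae' (fun n => (hGn n).aemeasurable) htend
  set V : ℕ → ℝ := fun n => ∫ θ, maj c A B θ ∂μ -
    2 * Real.pi * (zsum f c Z (rad n) + Real.log ‖f c‖) with hV
  set V1 : ℝ := ∫ θ, maj c A B θ ∂μ - 2 * Real.pi * (zsum f c Z 1 + Real.log ‖f c‖) with hV1
  -- convergence of V
  have hzs : Tendsto (fun n => zsum f c Z (rad n)) atTop (𝓝 (zsum f c Z 1)) := by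
    unfold zsum
    apply tendsto_finsetSum
    intro z _
    by_cases hy : ‖yac c z‖ = 0
    · simp only [hy, div_zero, Real.log_zero, mul_zero]
      exact tendsto_const_nhds
    · have h1 : Tendsto (fun n => rad n / ‖yac c z‖) atTop (𝓝 (1 / ‖yac c z‖)) :=
        rad_tendsto.div_const _
      exact ((Real.continuousAt_log (by positivity)).tendsto.comp h1).const_mul _
  have hVt : Tendsto V atTop (𝓝 V1) :=
    tendsto_const_nhds.sub ((hzs.add tendsto_const_nhds).const_mul _)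
  -- the estimate for each radius
  have hev : ∀ᶠ n in atTop, ∀ z ∈ Z, ‖yac c z‖ ≤ rad n := by
    rw [Filter.eventually_all_finset]
    intro z hz
    exact rad_tendsto.eventually (Ici_mem_nhds (norm_yac_lt hc (hZ z hz))) |>.mono
      fun n hn => hn
  have hle : ∀ n, 0 ≤ᵐ[μ] fun θ => maj c A B θ - bdry f c (rad n) θ := by
    intro n
    filter_upwards [hgood] with θ hθ
    have := le_maj hc hA hB hg (rad_pos n).le (rad_lt n).le hθ.1
    show 0 ≤ _
    unfold bdry
    linarith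
  have hle1 : 0 ≤ᵐ[μ] fun θ => maj c A B θ - bdry f c 1 θ := by
    filter_upwards [hgood] with θ hθ
    have := le_maj hc hA hB hg zero_le_one le_rfl hθ.1
    show 0 ≤ _
    unfold bdry
    linarith
  have hint : ∀ n, (∀ z ∈ Z, ‖yac c z‖ ≤ rad n) →
      ∫ θ, (maj c A B θ - bdry f c (rad n) θ) ∂μ ≤ V n := by
    intro n hn
    rw [integral_sub hH (hGn n)]
    have h1 := circ_low hc hf hfc Z hZ hn
    rw [Real.circleAverage_def, smul_eq_mul,
      intervalIntegral.integral_of_le (by positivity)] at h1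
    have h2 : (2 * Real.pi) * (zsum f c Z (rad n) + Real.log ‖f c‖) ≤
        ∫ θ, bdry f c (rad n) θ ∂μ := by
      have h3 := mul_le_mul_of_nonneg_left h1 (by positivity : (0 : ℝ) ≤ 2 * Real.pi)
      rw [← mul_assoc, mul_inv_cancel₀ (by positivity), one_mul] at h3
      exact h3
    simp only [hV]
    linarith
  have hV0 : 0 ≤ V1 := by
    apply ge_of_tendsto hVt
    filter_upwards [hev] with n hn
    exact (integral_nonneg_of_ae (hle n)).trans (hint n hn)
  -- Fatou
  have hfat : ∫⁻ θ, ENNReal.ofReal (maj c A B θ - bdry f c 1 θ) ∂μ ≤ ENNReal.ofReal V1 := by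
    have h1 : ∫⁻ θ, ENNReal.ofReal (maj c A B θ - bdry f c 1 θ) ∂μ ≤
        ∫⁻ θ, liminf (fun n => ENNReal.ofReal (maj c A B θ - bdry f c (rad n) θ)) atTop ∂μ := by
      apply lintegral_mono_ae
      filter_upwards [htend] with θ hθ
      have h2 : Tendsto (fun n => ENNReal.ofReal (maj c A B θ - bdry f c (rad n) θ)) atTop
          (𝓝 (ENNReal.ofReal (maj c A B θ - bdry f c 1 θ))) :=
        (ENNReal.continuous_ofReal.tendsto _).comp (tendsto_const_nhds.sub hθ)
      exact h2.liminf_eq.ge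
    have h2 : ∫⁻ θ, liminf (fun n => ENNReal.ofReal (maj c A B θ - bdry f c (rad n) θ)) atTop ∂μ ≤
        liminf (fun n => ∫⁻ θ, ENNReal.ofReal (maj c A B θ - bdry f c (rad n) θ) ∂μ) atTop :=
      lintegral_liminf_le' fun n => (hH.sub (hGn n)).aemeasurable.ennreal_ofReal
    have h3 : liminf (fun n => ∫⁻ θ, ENNReal.ofReal (maj c A B θ - bdry f c (rad n) θ) ∂μ) atTop ≤
        liminf (fun n => ENNReal.ofReal (V n)) atTop := by
      have hev2 : ∀ᶠ n in atTop, ∫⁻ θ, ENNReal.ofReal (maj c A B θ - bdry f c (rad n) θ) ∂μ ≤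
          ENNReal.ofReal (V n) := by
        filter_upwards [hev] with n hn
        have hs : Integrable (fun θ => maj c A B θ - bdry f c (rad n) θ) μ := hH.sub (hGn n)
        rw [← ofReal_integral_eq_lintegral_ofReal hs (hle n)]
        exact ENNReal.ofReal_le_ofReal (hint n hn)
      exact liminf_le_liminf hev2
    have h4 : Tendsto (fun n => ENNReal.ofReal (V n)) atTop (𝓝 (ENNReal.ofReal V1)) :=
      (ENNReal.continuous_ofReal.tendsto _).comp hVt
    rw [h4.liminf_eq] at h3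
    exact h1.trans (h2.trans h3)
  have hI : Integrable (fun θ => maj c A B θ - bdry f c 1 θ) μ := by
    refine ⟨(hH.aemeasurable.sub hmeas).aestronglyMeasurable, ?_⟩
    rw [hasFiniteIntegral_iff_ofReal hle1]
    exact hfat.trans_lt ENNReal.ofReal_lt_top
  have hG1 : Integrable (bdry f c 1) μ := by
    have h1 := hH.sub hI
    refine h1.congr ?_
    filter_upwards with θ
    show maj c A B θ - (maj c A B θ - bdry f c 1 θ) = bdry f c 1 θ
    ring
  refine ⟨hG1, ?_⟩
  rw [← ofReal_integral_eq_lintegral_ofReal hI hle1, ENNReal.ofReal_le_ofReal_iff hV0,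
    integral_sub hH hG1] at hfat
  simp only [hV1] at hfat
  linarith

end Pool.Agent.H26.ML
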