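import Pool.Agent.H26.ML.Zeros

/-! Multipliers imply few zeros to the right of the critical line. -/

set_option autoImplicit false

open Complex MeasureTheory Set Filter Topology

namespace Pool.Agent.H26.ML

open Pool.Agent.H23.GLM Pool.Agent.H23.GLH Pool.Agent.H23.DZ
open Pool.Agent.H73.DZ (X_le)
open Pool.Agent.H61.NL (exists_base farLow)

variable {m : ℕ}

theorem fewZeros_of_multiplied {S : Set (LData m)} (hS : Molteni S) (hF : FarBounds S)
    (h : Multiplied S) : ∀ δ κ : ℝ, 0 < δ → 0 < κ → ∃ K : ℝ, ∀ π ∈ S, ∀ t : ℝ, K ≤ π.X t →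
      FewZeros π.L {s | 1 / 2 + δ ≤ s.re ∧ t ≤ s.im ∧ s.im ≤ t + 1}
        (κ * Real.log (π.X t)) := by
  intro δ κ hδ hκ
  have hπ := Real.pi_pos
  obtain ⟨K₀, hK₀, hbase⟩ := exists_base hS
  obtain ⟨σ₁, c₁, hc₁, hlow⟩ := farLow hF
  obtain ⟨σ₂, c₂, hc₂, hlow₂⟩ := hF
  obtain ⟨σ₀, hmul⟩ := h
  set σ := max σ₀ 1 with hσ
  have hσ1 : 1 ≤ σ := le_max_right _ _
  set c := max (max σ σ₁) σ₂ with hc
  have hcσ : σ ≤ c := (le_max_left _ _).trans (le_max_left _ _)
  have hcσ₁ : σ₁ ≤ c := (le_max_right _ _).trans (le_max_left _ _)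
  have hcσ₂ : σ₂ ≤ c := le_max_right _ _
  have hc0 : 0 < c := by linarith
  set G := 1 / 2 * Real.log (1 + 4 * c * δ / (c ^ 2 + 1)) with hG
  have hG0 : 0 < G := by
    have h1 : 0 < 4 * c * δ / (c ^ 2 + 1) := by positivity
    have h2 : 0 < Real.log (1 + 4 * c * δ / (c ^ 2 + 1)) := Real.log_pos (by linarith)
    rw [hG]; positivity
  set ε := κ * G / 8 with hε
  have hε0 : 0 < ε := by positivity
  obtain ⟨R, θ, hR, hθ, hmul⟩ := hmul ε hε0
  -- the number of windows
  set k : ℕ := ⌈1 / R⌉₊ with hk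
  have hk0 : 1 / R ≤ k := Nat.le_ceil _
  have hk3 : (k : ℝ) < 1 / R + 1 := Nat.ceil_lt_add_one (by positivity)
  have hk1 : 1 ≤ k * R := by
    rwa [div_le_iff₀ hR] at hk0
  have hk2 : k * R ≤ 1 + R := by
    have h1 : (k : ℝ) * R ≤ (1 / R + 1) * R := by gcongr
    have h2 : (1 / R + 1) * R = 1 + R := by field_simp
    linarith
  have hk4 : k * min 1 R ≤ 2 := by
    have hmin : 0 < min 1 R := lt_min one_pos hR
    have h1 : (k : ℝ) * min 1 R ≤ (1 / R + 1) * min 1 R := by gcongr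
    have h2 : 1 / R * min 1 R ≤ 1 := by
      rw [one_div, inv_mul_le_iff₀ hR, mul_one]
      exact min_le_right _ _
    have h3 : min 1 R ≤ 1 := min_le_left _ _
    nlinarith
  set R' := k * R with hR'
  have hR'0 : 0 < R' := by linarith
  -- the tail
  set η := Real.pi * κ * G / (4 * (R' * (1 + θ))) with hη
  have hη0 : 0 < η := by positivity
  obtain ⟨T, hT0, hT⟩ := exists_tau_le hc0 hη0
  have hτ0 := tau_nonneg hc0 T
  obtain ⟨K, hmul⟩ := hmul (T + 1 + R)
  set ℓ := Real.log (c₁ / σ) with hℓ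
  set C₁ := |Real.pi * (R' * ℓ)| + R' * (Real.log K₀ + θ * Real.log (3 / 2) +
    (m + θ) * Real.log (1 + R') + (m + θ)) * η with hC₁
  refine ⟨max K (Real.exp (4 * C₁ / (Real.pi * G * κ))), ?_⟩
  intro π hπS t hX Z hZ
  have hX1 := π.one_le_X t
  have hX0 : 0 < π.X t := by linarith
  have hXK : K ≤ π.X t := (le_max_left _ _).trans hX
  have hXe : Real.exp (4 * C₁ / (Real.pi * G * κ)) ≤ π.X t := (le_max_right _ _).trans hX
  have hlogX : 4 * C₁ / (Real.pi * G * κ) ≤ Real.log (π.X t) := by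
    rw [Real.le_log_iff_exp_le hX0]; exact hXe
  set Lg := Real.log (π.X t) with hLg
  have hLg0 : 0 ≤ Lg := Real.log_nonneg hX1
  obtain ⟨M, hM, hMg, hMl, hMw⟩ := hmul π hπS t hXK
  -- lower bounds at the centres
  have hcen : ∀ h : ℝ, 0 ≤ h → h ≤ 1 + R → c₁ / σ ≤
      ‖π.F (1 / 2 + c + (t + h) * I) * M (1 / 2 + c + (t + h) * I)‖ := by
    intro h h0 h1
    set s : ℂ := 1 / 2 + c + (t + h) * I with hs
    have hsre : s.re = 1 / 2 + c := by simp [hs]
    have hsim : s.im = t + h := by simp [hs]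
    have h2 : c₁ ≤ ‖π.F s‖ := hlow ⟨π, hπS⟩ s (by rw [hsre]; linarith)
    have h3 : 1 ≤ σ₀ * ‖M s‖ := hMl s (by
      rw [hsre]
      have : σ₀ ≤ σ := le_max_left _ _
      linarith) (by
      rw [hsim, add_sub_cancel_left, abs_of_nonneg h0]
      linarith)
    have h4 : 1 ≤ σ * ‖M s‖ := h3.trans (by
      have : σ₀ ≤ σ := le_max_left _ _
      gcongr)
    have h5 : 1 / σ ≤ ‖M s‖ := by
      rw [div_le_iff₀ (by linarith), mul_comm]
      exact h4
    rw [norm_mul]
    calc c₁ / σ = c₁ * (1 / σ) := by ring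
      _ ≤ _ := by
        have : 0 < 1 / σ := by positivity
        gcongr
  have hcσ0 : 0 < c₁ / σ := by positivity
  have key := one_height π (M := M) (t := t) (c := c) (K₀ := K₀) (θ := θ) (R := R)
    (w := ε * min 1 R * Lg) (T := T) (δ := δ) (ℓ := ℓ) (k := k) hK₀ hθ hc0 hR hδ
    (by
      have : 0 < min 1 R := lt_min one_pos hR
      positivity) hk1 hk2
    (fun s hs => (hbase ⟨π, hπS⟩).bd s hs)
    (fun u => (hbase ⟨π, hπS⟩).Xs t u) hM hMg
    (fun h h0 h1 h2 => by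
      have h3 := hcen h h0 h1
      rw [h2, norm_zero] at h3
      linarith)
    (fun h h0 h1 => Real.log_le_log hcσ0 (hcen h h0 h1))
    (fun s hs h0 => by
      have h1 := (hlow₂ π hπS s (by linarith)).1
      rw [h0, norm_zero] at h1
      linarith)
    (fun u hu => hMw u hu) Z (fun z hz => hZ z hz)
  rw [← hG] at key
  set n : ℝ := ((∑ z ∈ Z, analyticOrderNatAt π.L z : ℕ) : ℝ) with hn
  -- the logarithm of the growth constant
  have hlogA : Real.log (K₀ * (3 / 2) ^ θ * π.X t ^ (1 + θ)) =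
      Real.log K₀ + θ * Real.log (3 / 2) + (1 + θ) * Lg := by
    rw [Real.log_mul (by positivity) (by positivity), Real.log_mul (by positivity) (by positivity),
      Real.log_rpow (by norm_num), Real.log_rpow hX0]
  rw [hlogA] at key
  have hD0 : 0 ≤ Real.log K₀ + θ * Real.log (3 / 2) + (m + θ) * Real.log (1 + R') + (m + θ) := by
    have h1 := Real.log_nonneg hK₀
    have h2 : 0 ≤ Real.log (3 / 2) := Real.log_nonneg (by norm_num)
    have h3 : 0 ≤ Real.log (1 + R') := Real.log_nonneg (by linarith)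
    positivity
  have e1 : k * R * (Real.log K₀ + θ * Real.log (3 / 2) + (1 + θ) * Lg +
      (m + θ) * Real.log (1 + k * R) + (m + θ)) * tau c T =
      R' * (Real.log K₀ + θ * Real.log (3 / 2) + (m + θ) * Real.log (1 + R') + (m + θ)) *
        tau c T + R' * (1 + θ) * Lg * tau c T := by
    rw [hR']; ring
  rw [e1] at key
  have h1 : R' * (Real.log K₀ + θ * Real.log (3 / 2) + (m + θ) * Real.log (1 + R') + (m + θ)) *
      tau c T ≤ R' * (Real.log K₀ + θ * Real.log (3 / 2) + (m + θ) * Real.log (1 + R') +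
        (m + θ)) * η := by gcongr
  have h2 : R' * (1 + θ) * Lg * tau c T ≤ R' * (1 + θ) * Lg * η := by gcongr
  have h3 : R' * (1 + θ) * Lg * η = Real.pi * κ * G / 4 * Lg := by
    rw [hη]
    field_simp
  have h4 : Real.pi * (k * (ε * min 1 R * Lg)) ≤ Real.pi * κ * G / 4 * Lg := by
    have e2 : Real.pi * (k * (ε * min 1 R * Lg)) = Real.pi * ε * Lg * (k * min 1 R) := by ring
    rw [e2]
    calc Real.pi * ε * Lg * (k * min 1 R) ≤ Real.pi * ε * Lg * 2 := by gcongr
      _ = _ := by rw [hε]; ring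
  have h5 : -(Real.pi * (R' * ℓ)) ≤ |Real.pi * (R' * ℓ)| := neg_le_abs _
  have h6 : C₁ ≤ Real.pi * κ * G / 4 * Lg := by
    rw [div_le_iff₀ (by positivity)] at hlogX
    linarith
  have h7 : Real.pi * (G * n + R' * ℓ) = Real.pi * G * n + Real.pi * (R' * ℓ) := by ring
  rw [h7] at key
  have h8 : Real.pi * G * n ≤ Real.pi * G * (κ * Lg) := by
    have h9 : 0 ≤ Real.pi * κ * G * Lg := by positivity
    linarith
  exact le_of_mul_le_mul_left h8 (by positivity)

end Pool.Agent.H26.ML
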