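import Pool.Agent.H26.ML.Core
import Pool.Agent.H61.NL.Inst

/-! Orders of vanishing and integrability on the critical line. -/

set_option autoImplicit false

open Complex MeasureTheory Set Filter Topology

namespace Pool.Agent.H26.ML

open Pool.Agent.H23.GLM Pool.Agent.H23.GLH Pool.Agent.H23.DZ
open Pool.Agent.H61.Ray (norm_L_F)

variable {m : ℕ}

lemma F_analytic (π : LData m) : AnalyticOnNhd ℂ π.F {s | 0 < s.re} := by
  have hU : IsOpen {s : ℂ | 0 < s.re} := isOpen_lt continuous_const Complex.continuous_re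
  refine DifferentiableOn.analyticOnNhd ?_ hU
  by_cases h : Differentiable ℂ π.L
  · rw [LData.F_pos h]; exact h.differentiableOn
  · rw [LData.F_neg h]; exact differentiableOn_Fz

lemma order_L_le_F (π : LData m) {s : ℂ} (hs : 0 < s.re) :
    analyticOrderNatAt π.L s ≤ analyticOrderNatAt π.F s := by
  by_cases h : Differentiable ℂ π.L
  · rw [LData.F_pos h]
  · obtain ⟨_, _, hL⟩ := LData.zeta_of h
    rw [LData.F_neg h, hL]
    by_cases hs1 : s = 1
    · have h0 : analyticOrderNatAt riemannZeta s = 0 := by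
        by_cases ha : AnalyticAt ℂ riemannZeta s
        · rw [analyticOrderNatAt, ha.analyticOrderAt_eq_zero.mpr]
          · rfl
          · rw [hs1]; exact riemannZeta_one_ne_zero
        · exact analyticOrderNatAt_of_not_analyticAt ha
      omega
    have hU : {z : ℂ | 0 < z.re} ∩ {z : ℂ | z ≠ 1} ∈ 𝓝 s :=
      ((isOpen_lt continuous_const Complex.continuous_re).inter isOpen_ne).mem_nhds ⟨hs, hs1⟩
    have hev : Fz =ᶠ[𝓝 s] fun z => riemannZeta z * ((z - 1) / (z + 1)) := by
      filter_upwards [hU] with z hz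
      exact Fz_eq hz.1 hz.2
    have ha1 : AnalyticAt ℂ riemannZeta s := by
      have : DifferentiableOn ℂ riemannZeta ({z : ℂ | 0 < z.re} ∩ {z : ℂ | z ≠ 1}) :=
        fun z hz => (differentiableAt_riemannZeta hz.2).differentiableWithinAt
      exact this.analyticAt hU
    have hne : s + 1 ≠ 0 := add_one_ne hs
    have ha2 : AnalyticAt ℂ (fun z : ℂ => (z - 1) / (z + 1)) s := by
      have h3 : AnalyticAt ℂ (fun z : ℂ => z - 1) s := by fun_prop
      have h4 : AnalyticAt ℂ (fun z : ℂ => z + 1) s := by fun_prop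
      exact h3.fun_div h4 hne
    have hne2 : (fun z : ℂ => (z - 1) / (z + 1)) s ≠ 0 :=
      div_ne_zero (sub_ne_zero.mpr hs1) hne
    have h2 : analyticOrderAt Fz s = analyticOrderAt riemannZeta s := by
      rw [analyticOrderAt_congr hev]
      have e : (fun z => riemannZeta z * ((z - 1) / (z + 1))) =
          riemannZeta * fun z : ℂ => (z - 1) / (z + 1) := rfl
      rw [e, analyticOrderAt_mul ha1 ha2, ha2.analyticOrderAt_eq_zero.mpr hne2, add_zero]
    rw [analyticOrderNatAt, analyticOrderNatAt, h2]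

/-- The order of a factor is at most the order of the product. -/
lemma order_le_mul {F M : ℂ → ℂ} {s : ℂ} (hF : AnalyticAt ℂ F s) (hM : AnalyticAt ℂ M s)
    (h : analyticOrderAt (F * M) s ≠ ⊤) :
    analyticOrderNatAt F s ≤ analyticOrderNatAt (F * M) s := by
  unfold analyticOrderNatAt
  have h1 := analyticOrderAt_mul hF hM
  exact ENat.toNat_le_toNat (by rw [h1]; exact le_self_add) h

/-- Shift of the variable. -/
lemma order_shift (f : ℂ → ℂ) (a z : ℂ) :
    analyticOrderNatAt (fun w => f (w + a)) (z - a) = analyticOrderNatAt f z := by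
  have h2 : AnalyticAt ℂ (fun w : ℂ => w + a) (z - a) := by fun_prop
  have h3 : deriv (fun w : ℂ => w + a) (z - a) ≠ 0 := by simp
  have h4 := analyticOrderAt_comp_of_deriv_ne_zero (f := f) h2 h3
  have h5 : (f ∘ fun w : ℂ => w + a) = fun w => f (w + a) := rfl
  rw [h5, sub_add_cancel] at h4
  rw [analyticOrderNatAt, analyticOrderNatAt, h4]

/-- `log |g|` is integrable on segments of the critical line. -/
lemma line_int {g : ℂ → ℂ} (hg : ∀ v : ℝ, AnalyticAt ℂ g (1 / 2 + v * I)) (a b : ℝ) :
    IntervalIntegrable (fun v : ℝ => Real.log ‖g (1 / 2 + v * I)‖) volume a b := by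
  have h1 : MeromorphicOn (fun v : ℝ => g (1 / 2 + v * I)) (uIcc a b) := by
    intro v _
    have h2 : AnalyticAt ℝ g (1 / 2 + v * I) := (hg v).restrictScalars
    have h3 : AnalyticAt ℝ (fun v : ℝ => (1 / 2 + v * I : ℂ)) v := by
      have : AnalyticAt ℝ (fun v : ℝ => (v : ℂ)) v := Complex.ofRealCLM.analyticAt v
      fun_prop
    exact (h2.fun_comp (f := fun v : ℝ => (1 / 2 + v * I : ℂ)) h3).meromorphicAt
  exact h1.intervalIntegrable_log_norm

lemma L_line (π : LData m) (v : ℝ) : AnalyticAt ℂ π.L (1 / 2 + v * I) := by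
  have hU : IsOpen {s : ℂ | s.re < 1} := isOpen_lt Complex.continuous_re continuous_const
  have h1 : DifferentiableOn ℂ π.L {s | s.re < 1} := fun s hs =>
    (Pool.Agent.H61.Ray.L_diff π hs).differentiableWithinAt
  refine h1.analyticAt (hU.mem_nhds ?_)
  simp
  norm_num

/-- Adjacent windows. -/
lemma windows_add {g : ℝ → ℝ} (hg : ∀ a b, IntervalIntegrable g volume a b) {R w : ℝ} (k : ℕ)
    (u : ℝ) (h : ∀ j < k, ∫ v in (u + j * R)..(u + j * R + R), g v ≤ w) :
    ∫ v in u..u + k * R, g v ≤ k * w := by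
  have h1 := intervalIntegral.sum_integral_adjacent_intervals (f := g) (μ := volume)
    (a := fun j : ℕ => u + j * R) (n := k) (fun j _ => hg _ _)
  simp only [Nat.cast_zero, zero_mul, add_zero] at h1
  rw [← h1]
  calc ∑ j ∈ Finset.range k, ∫ v in (u + j * R)..(u + (j + 1 : ℕ) * R), g v
      ≤ ∑ _j ∈ Finset.range k, w := by
        refine Finset.sum_le_sum fun j hj => ?_
        have e : u + (j + 1 : ℕ) * R = u + j * R + R := by push_cast; ring
        rw [e]
        exact h j (Finset.mem_range.mp hj)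
    _ = k * w := by simp

end Pool.Agent.H26.ML
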