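import Pool.Agent.H26.ML.Orders
import Pool.Agent.H26.ML.Defs

/-! Few zeros to the right of the critical line. -/

set_option autoImplicit false

open Complex MeasureTheory Set Filter Topology

namespace Pool.Agent.H26.ML

open Pool.Agent.H23.GLM Pool.Agent.H23.GLH Pool.Agent.H23.DZ
open Pool.Agent.H61.Ray (norm_L_F)

variable {m : ℕ}

/-- One `L`-function and one height. -/
theorem one_height (π : LData m) {M : ℂ → ℂ} {t c K₀ θ R w T δ ℓ : ℝ} {k : ℕ}
    (hK : 1 ≤ K₀) (hθ : 0 ≤ θ) (hc : 0 < c) (hR : 0 < R) (hδ : 0 < δ) (hw : 0 ≤ w)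
    (hk1 : 1 ≤ k * R) (hk2 : k * R ≤ 1 + R)
    (hbd : ∀ s : ℂ, 1 / 4 ≤ s.re → ‖π.F s‖ ≤ K₀ * π.X s.im)
    (hXs : ∀ u : ℝ, π.X u ≤ π.X t * (1 + |u - t|) ^ m)
    (hM : AnalyticOnNhd ℂ M {s | 1 / 2 ≤ s.re})
    (hMg : ∀ s : ℂ, 1 / 2 ≤ s.re → ‖M s‖ ≤ (π.X t * (1 + ‖s - t * I‖)) ^ θ)
    (hne : ∀ h : ℝ, 0 ≤ h → h ≤ 1 + R → π.F (1 / 2 + c + (t + h) * I) *
      M (1 / 2 + c + (t + h) * I) ≠ 0)
    (hl : ∀ h : ℝ, 0 ≤ h → h ≤ 1 + R → ℓ ≤ Real.log ‖π.F (1 / 2 + c + (t + h) * I) *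
      M (1 / 2 + c + (t + h) * I)‖)
    (hL : ∀ s : ℂ, 1 / 2 + c ≤ s.re → π.L s ≠ 0)
    (hwin : ∀ u : ℝ, |u - t| ≤ T + 1 + R → ∫ v in u..u + R,
      Real.log ‖π.L (1 / 2 + v * I) * M (1 / 2 + v * I)‖ ≤ w)
    (Z : Finset ℂ) (hZ : ∀ z ∈ Z, 1 / 2 + δ ≤ z.re ∧ t ≤ z.im ∧ z.im ≤ t + 1) :
    Real.pi * (1 / 2 * Real.log (1 + 4 * c * δ / (c ^ 2 + 1)) *
        ((∑ z ∈ Z, analyticOrderNatAt π.L z : ℕ) : ℝ) + k * R * ℓ) ≤
      Real.pi * (k * w) + k * R * (Real.log (K₀ * (3 / 2) ^ θ * π.X t ^ (1 + θ)) +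
        (m + θ) * Real.log (1 + k * R) + (m + θ)) * tau c T := by
  classical
  have hπ := Real.pi_pos
  have hX1 := π.one_le_X t
  set s₀ : ℂ := 1 / 2 + t * I with hs₀
  set f : ℂ → ℂ := fun z => π.F (z + s₀) * M (z + s₀) with hf
  have hre : ∀ z : ℂ, (z + s₀).re = z.re + 1 / 2 := by intro z; simp [hs₀]
  have him : ∀ z : ℂ, (z + s₀).im = z.im + t := by intro z; simp [hs₀]
  have hFan := F_analytic π
  have hfa : AnalyticOnNhd ℂ f {z | 0 ≤ z.re} := by
    intro z hz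
    have hz' : 0 ≤ z.re := hz
    have h1 : AnalyticAt ℂ π.F (z + s₀) := hFan _ (by show 0 < (z + s₀).re; rw [hre]; linarith)
    have h2 : AnalyticAt ℂ M (z + s₀) := hM _ (by show 1 / 2 ≤ (z + s₀).re; rw [hre]; linarith)
    exact (h1.fun_comp (f := fun z : ℂ => z + s₀) (by fun_prop)).mul
      (h2.fun_comp (f := fun z : ℂ => z + s₀) (by fun_prop))
  set A : ℝ := K₀ * (3 / 2) ^ θ * π.X t ^ (1 + θ) with hA
  have hA1 : 1 ≤ A := by
    refine one_le_mul_of_one_le_of_one_le (one_le_mul_of_one_le_of_one_le hK ?_) ?_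
    · exact Real.one_le_rpow (by norm_num) hθ
    · exact Real.one_le_rpow hX1 (by linarith)
  have hB0 : (0:ℝ) ≤ m + θ := by positivity
  have hg : ∀ z : ℂ, 0 ≤ z.re → ‖f z‖ ≤ A * (1 + ‖z‖) ^ ((m : ℝ) + θ) := by
    intro z hz
    have hnz := norm_nonneg z
    have h1 := hbd (z + s₀) (by rw [hre]; linarith)
    have h2 := hMg (z + s₀) (by rw [hre]; linarith)
    have h3 := hXs (z + s₀).im
    rw [him, add_sub_cancel_right] at h3
    rw [him] at h1
    have h4 : |z.im| ≤ ‖z‖ := Complex.abs_im_le_norm z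
    have h5 : (1 + |z.im|) ^ m ≤ (1 + ‖z‖) ^ m := by
      have := abs_nonneg z.im
      gcongr
    have h6 : ‖z + s₀ - t * I‖ ≤ ‖z‖ + 1 / 2 := by
      have e : z + s₀ - t * I = z + 1 / 2 := by rw [hs₀]; ring
      rw [e]
      refine (norm_add_le _ _).trans ?_
      norm_num
    have h7 : (π.X t * (1 + ‖z + s₀ - t * I‖)) ^ θ ≤
        (3 / 2) ^ θ * π.X t ^ θ * (1 + ‖z‖) ^ θ := by
      rw [← Real.mul_rpow (by norm_num) (by linarith), ← Real.mul_rpow (by positivity)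
        (by positivity)]
      refine Real.rpow_le_rpow (by positivity) ?_ hθ
      have h8 : 1 + ‖z + s₀ - t * I‖ ≤ 3 / 2 * (1 + ‖z‖) := by linarith
      calc π.X t * (1 + ‖z + s₀ - t * I‖) ≤ π.X t * (3 / 2 * (1 + ‖z‖)) := by gcongr
        _ = _ := by ring
    have h9 : ‖f z‖ = ‖π.F (z + s₀)‖ * ‖M (z + s₀)‖ := norm_mul _ _
    rw [h9]
    have h10 : ‖π.F (z + s₀)‖ ≤ K₀ * (π.X t * (1 + ‖z‖) ^ m) := by
      refine h1.trans ?_
      gcongr
      exact h3.trans (by gcongr)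
    have h11 := h2.trans h7
    calc ‖π.F (z + s₀)‖ * ‖M (z + s₀)‖ ≤ (K₀ * (π.X t * (1 + ‖z‖) ^ m)) *
          ((3 / 2) ^ θ * π.X t ^ θ * (1 + ‖z‖) ^ θ) := by gcongr
      _ = K₀ * (3 / 2) ^ θ * (π.X t ^ (1:ℝ) * π.X t ^ θ) *
          ((1 + ‖z‖) ^ (m : ℝ) * (1 + ‖z‖) ^ θ) := by
        rw [Real.rpow_one, Real.rpow_natCast]
        ring
      _ = _ := by
        rw [← Real.rpow_add (by linarith), ← Real.rpow_add (by linarith)]
  have hcen : ∀ h : ℝ, (c : ℂ) + h * I + s₀ = 1 / 2 + c + (t + h) * I := by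
    intro h
    rw [hs₀]
    ring
  -- the windows
  have hint : ∀ a b : ℝ, IntervalIntegrable
      (fun v : ℝ => Real.log ‖π.L (1 / 2 + v * I) * M (1 / 2 + v * I)‖) volume a b := by
    intro a b
    refine line_int (g := fun s => π.L s * M s) (fun v => ?_) a b
    exact (L_line π v).mul (hM _ (by simp))
  have hintF : ∀ a b : ℝ, IntervalIntegrable
      (fun v : ℝ => Real.log ‖π.F (1 / 2 + v * I) * M (1 / 2 + v * I)‖) volume a b := by
    intro a b
    refine line_int (g := fun s => π.F s * M s) (fun v => ?_) a b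
    exact (hFan _ (by simp)).mul (hM _ (by simp))
  have hFL : ∀ v : ℝ, Real.log ‖π.F (1 / 2 + v * I) * M (1 / 2 + v * I)‖ ≤
      Real.log ‖π.L (1 / 2 + v * I) * M (1 / 2 + v * I)‖ := by
    intro v
    have h1 := norm_L_F π (s := 1 / 2 + v * I) (by simp; norm_num) (by simp; norm_num)
    rw [norm_mul, norm_mul]
    rcases (norm_nonneg (π.F (1 / 2 + v * I))).eq_or_lt with h0 | h0
    · rw [← h0] at h1
      have h2 : ‖π.L (1 / 2 + v * I)‖ = 0 := le_antisymm (by linarith [h1.2]) (norm_nonneg _)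
      rw [← h0, h2]
    · rcases (norm_nonneg (M (1 / 2 + v * I))).eq_or_lt with h3 | h3
      · rw [← h3, mul_zero, mul_zero]
      · apply Real.log_le_log (by positivity)
        gcongr
        exact h1.1
  have hwin' : ∀ u : ℝ, |u| ≤ T → ∫ v in u..u + k * R, Real.log ‖f (v * I)‖ ≤ k * w := by
    intro u hu
    have e1 : ∫ v in u..u + k * R, Real.log ‖f (v * I)‖ = ∫ v in (u + t)..(u + t + k * R),
        Real.log ‖π.F (1 / 2 + v * I) * M (1 / 2 + v * I)‖ := by
      have h1 := intervalIntegral.integral_comp_add_right (a := u) (b := u + k * R)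
        (fun v : ℝ => Real.log ‖π.F (1 / 2 + v * I) * M (1 / 2 + v * I)‖) t
      have e2 : u + k * R + t = u + t + k * R := by ring
      rw [e2] at h1
      rw [← h1]
      congr 1
      funext v
      have e3 : (v : ℂ) * I + s₀ = 1 / 2 + ((v + t : ℝ) : ℂ) * I := by
        rw [hs₀]; push_cast; ring
      simp only [hf]
      rw [e3]
    rw [e1]
    have h2 : ∫ v in (u + t)..(u + t + k * R),
        Real.log ‖π.F (1 / 2 + v * I) * M (1 / 2 + v * I)‖ ≤
        ∫ v in (u + t)..(u + t + k * R),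
        Real.log ‖π.L (1 / 2 + v * I) * M (1 / 2 + v * I)‖ :=
      intervalIntegral.integral_mono_on (by linarith) (hintF _ _) (hint _ _) fun v _ => hFL v
    refine h2.trans ?_
    refine windows_add hint k (u + t) fun j hj => ?_
    refine hwin _ ?_
    have hjk : (j : ℝ) * R ≤ k * R := by
      have : (j : ℝ) ≤ k := by exact_mod_cast hj.le
      gcongr
    have hj0 : 0 ≤ (j : ℝ) * R := by positivity
    have e4 : u + t + j * R - t = u + j * R := by ring
    rw [e4]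
    have h5 := abs_add_le u (j * R)
    rw [abs_of_nonneg hj0] at h5
    linarith
  -- the zeros
  set Z' := Z.filter fun z => z.re < 1 / 2 + c with hZ'
  set W := Z'.map ⟨fun z => z - s₀, sub_left_injective⟩ with hW
  have hWm : ∀ z ∈ W, δ ≤ z.re ∧ 0 < z.re ∧ z.re < c ∧ 0 ≤ z.im ∧ z.im ≤ 1 := by
    intro z hz
    rw [hW, Finset.mem_map] at hz
    obtain ⟨y, hy, rfl⟩ := hz
    rw [hZ', Finset.mem_filter] at hy
    obtain ⟨h1, h2, h3⟩ := hZ y hy.1
    simp only [Function.Embedding.coeFn_mk, hs₀, sub_re, add_re, sub_im, add_im, mul_re, mul_im,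
      ofReal_re, ofReal_im, I_re, I_im, mul_zero, mul_one, sub_zero, add_zero, zero_add]
    norm_num
    have := hy.2
    refine ⟨by linarith, by linarith, by linarith, by linarith, by linarith⟩
  have hmain := zeros_of_windows (f := f) (A := A) (B := m + θ) (ℓ := ℓ) (w := k * w) (T := T)
    (δ := δ) (R := k * R) (c := c) hc hA1 hB0 hk1 hδ.le (by positivity) hfa hg
    (fun h h0 h1 => by
      simp only [hf]
      rw [hcen]
      exact hne h h0 (h1.trans hk2))
    (fun h h0 h1 => by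
      simp only [hf]
      rw [hcen]
      exact hl h h0 (h1.trans hk2)) hwin' W hWm
  refine le_trans ?_ hmain
  have hG0 : 0 ≤ 1 / 2 * Real.log (1 + 4 * c * δ / (c ^ 2 + 1)) := by
    have : 0 ≤ Real.log (1 + 4 * c * δ / (c ^ 2 + 1)) := by
      apply Real.log_nonneg
      have : 0 ≤ 4 * c * δ / (c ^ 2 + 1) := by positivity
      linarith
    positivity
  -- comparison of the orders
  have hsum : ∑ z ∈ Z, analyticOrderNatAt π.L z ≤ ∑ z ∈ W, analyticOrderNatAt f z := by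
    rw [hW, Finset.sum_map]
    simp only [Function.Embedding.coeFn_mk]
    have h1 : ∑ z ∈ Z, analyticOrderNatAt π.L z = ∑ z ∈ Z', analyticOrderNatAt π.L z := by
      rw [hZ', Finset.sum_filter_of_ne]
      intro z hz h0
      by_contra h2
      push Not at h2
      apply h0
      have h3 := hL z h2
      by_cases ha : AnalyticAt ℂ π.L z
      · rw [analyticOrderNatAt, ha.analyticOrderAt_eq_zero.mpr h3]
        rfl
      · exact analyticOrderNatAt_of_not_analyticAt ha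
    rw [h1]
    refine Finset.sum_le_sum fun z hz => ?_
    rw [hZ', Finset.mem_filter] at hz
    obtain ⟨h2, h3, h4⟩ := hZ z hz.1
    have hzre : 0 < z.re := by linarith
    have h5 := order_L_le_F π hzre
    have hFz : AnalyticAt ℂ π.F z := hFan z hzre
    have hMz : AnalyticAt ℂ M z := hM z (by show 1 / 2 ≤ z.re; linarith)
    have h6 : analyticOrderAt (π.F * M) z ≠ ⊤ := by
      intro htop
      rw [analyticOrderAt_eq_top] at htop
      have hU : IsPreconnected {s : ℂ | 1 / 2 ≤ s.re} :=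
        (convex_halfSpace_re_ge (1 / 2)).isPreconnected
      have han : AnalyticOnNhd ℂ (π.F * M) {s : ℂ | 1 / 2 ≤ s.re} := fun s hs =>
        (hFan s (by
          have : (1:ℝ) / 2 ≤ s.re := hs
          show 0 < s.re
          linarith)).mul (hM s hs)
      have h7 := han.eqOn_zero_of_preconnected_of_eventuallyEq_zero hU
        (show z ∈ {s : ℂ | 1 / 2 ≤ s.re} by show 1 / 2 ≤ z.re; linarith) htop
      have h8 := h7 (show (1 / 2 + c + (t + (0:ℝ)) * I : ℂ) ∈ {s : ℂ | 1 / 2 ≤ s.re} by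
        simp; linarith)
      exact hne 0 le_rfl (by linarith) h8
    have h7 := order_le_mul hFz hMz h6
    have h8 : analyticOrderNatAt f (z - s₀) = analyticOrderNatAt (π.F * M) z := by
      have := order_shift (π.F * M) s₀ z
      rw [← this]
      rfl
    rw [h8]
    exact h5.trans h7
  have hsum' : ((∑ z ∈ Z, analyticOrderNatAt π.L z : ℕ) : ℝ) ≤
      ((∑ z ∈ W, analyticOrderNatAt f z : ℕ) : ℝ) := by exact_mod_cast hsum
  gcongr

end Pool.Agent.H26.ML
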